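import Mathlib

set_option autoImplicit false

namespace Pool.Agent.LT77

/-- Half-systems. -/
structure Sign (k : ℕ) (P : ZMod k → ZMod k → Prop) : Prop where
  neg : ∀ e x, x ≠ 0 → (P e x ↔ ¬ P e (-x))
  zero : ∀ e, ¬ P e 0
  refl : ∀ e x, 2 * x ≠ e → (P e x ↔ ¬ P e (e - x))
  fix : ∀ e x, 2 * x = e → ¬ P e x

section Labels

variable {k : ℕ}

def ee (f : ZMod k) : ZMod k := -2 * (1 + 3 * f)

open Classical in
noncomputable def labS (P : ZMod k → ZMod k → Prop) (f x : ZMod k) : ℕ × ZMod k :=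
  if P (ee f) x then (1, f) else (2, f)

noncomputable def labA (h2 : ZMod k) (P : ZMod k → ZMod k → Prop) (β γ : ZMod k) :=
  labS P (h2 * (β + γ)) (β - h2 * (β + γ))

noncomputable def labB (h2 : ZMod k) (P : ZMod k → ZMod k → Prop) (α γ : ZMod k) :=
  labS P (-(h2 * h2 * (α + γ + 2))) (γ + h2 * h2 * (α + γ + 2))

noncomputable def labC (h2 : ZMod k) (P : ZMod k → ZMod k → Prop) (α β : ZMod k) :=
  labS P (h2 * (α + β)) (α - h2 * (α + β))

open Classical in
noncomputable def ll (h3 : 3 ∣ k) (α β : ZMod k) : ZMod k :=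
  if ZMod.castHom h3 (ZMod 3) (α - β) = 2 then α + 2 * β else α - β

open Classical in
noncomputable def labT (h3 : 3 ∣ k) (α β : ZMod k) : ℕ × ZMod k :=
  if ll h3 α β = 0 then (2, α) else if ll h3 α β = -1 then (1, β) else (0, ll h3 α β)

theorem labS_ne (P : ZMod k → ZMod k → Prop) (f x g : ZMod k) : labS P f x ≠ (0, g) := by
  unfold labS; split_ifs <;> simp

theorem labS_fst (P : ZMod k → ZMod k → Prop) (f x : ZMod k) :
    (labS P f x).1 = 1 ∨ (labS P f x).1 = 2 := by
  unfold labS; split_ifs <;> simp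

theorem labS_one (P : ZMod k → ZMod k → Prop) {f x g : ZMod k} (h : (1, g) = labS P f x) :
    f = g ∧ P (ee f) x := by
  unfold labS at h; split_ifs at h with h' <;> simp at h
  exact ⟨h.symm, h'⟩

theorem labS_two (P : ZMod k → ZMod k → Prop) {f x g : ZMod k} (h : (2, g) = labS P f x) :
    f = g ∧ ¬ P (ee f) x := by
  unfold labS at h; split_ifs at h with h' <;> simp at h
  exact ⟨h.symm, h'⟩

theorem labS_inj (P : ZMod k → ZMod k → Prop) {f x f' x' : ZMod k}
    (h : labS P f x = labS P f' x') : f = f' ∧ (P (ee f) x ↔ P (ee f') x') := by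
  unfold labS at h
  split_ifs at h with h1 h1' h1' <;> simp at h
  · exact ⟨h, by simp [h1, h1']⟩
  · exact ⟨h, by simp [h1, h1']⟩

variable (h2 : ZMod k) (hh : 2 * h2 = 1) {P : ZMod k → ZMod k → Prop} (hP : Sign k P)

include hh in
theorem half_cancel {x y : ZMod k} (h : 2 * x = 2 * y) : x = y := by
  linear_combination h2 * h - (x - y) * hh

include hP in
theorem S_neg {f x f' x' : ZMod k} (h : labS P f x = labS P f' x') (hx : f = f' → x' = -x)
    (h0 : x ≠ 0) : False := by
  obtain ⟨hf, hs⟩ := labS_inj P h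
  have := hx hf
  subst hf this
  have := hP.neg (ee f) x h0
  tauto

include hP in
theorem S_refl {f x f' x' : ZMod k} (h : labS P f x = labS P f' x') (hx : f = f' → x' = ee f - x)
    (h0 : 2 * x ≠ ee f) : False := by
  obtain ⟨hf, hs⟩ := labS_inj P h
  have := hx hf
  subst hf this
  have := hP.refl (ee f) x h0
  tauto

include hh in
theorem A_f {β γ β' γ' : ZMod k} (h : labA h2 P β γ = labA h2 P β' γ') : β + γ = β' + γ' := by
  have := (labS_inj P h).1
  linear_combination 2 * this - (β + γ - β' - γ') * hh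

include hh in
theorem B_f {β γ β' γ' : ZMod k} (h : labB h2 P β γ = labB h2 P β' γ') : β + γ = β' + γ' := by
  have := (labS_inj P h).1
  linear_combination (-4) * this - (β + γ - β' - γ') * (2 * h2 + 1) * hh

include hh in
theorem C_f {β γ β' γ' : ZMod k} (h : labC h2 P β γ = labC h2 P β' γ') : β + γ = β' + γ' := by
  have := (labS_inj P h).1
  linear_combination 2 * this - (β + γ - β' - γ') * hh

include hh hP in
theorem A_swap {β γ : ZMod k} (hne : β ≠ γ) (h : labA h2 P β γ = labA h2 P γ β) : False :=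
  S_neg hP h (fun _ => by linear_combination (-(β + γ)) * hh) (fun h0 => hne (by
    linear_combination 2 * h0 + (β + γ) * hh))

include hh hP in
theorem C_swap {β γ : ZMod k} (hne : β ≠ γ) (h : labC h2 P β γ = labC h2 P γ β) : False :=
  A_swap h2 hh hP hne h

include hh hP in
theorem B_swap {α γ : ZMod k} (hne : α ≠ γ) (h : labB h2 P α γ = labB h2 P γ α) : False :=
  S_refl hP h (fun _ => by
    unfold ee
    linear_combination (-(α + γ + 2)) * (2 * h2 + 1) * hh) (fun h0 => hne (by
    unfold ee at h0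
    linear_combination (-1) * h0 - (α + γ + 2) * (2 * h2 + 1) * hh))

include hh hP in
theorem AC {α β γ : ZMod k} (hne : β ≠ γ) (h : labA h2 P β γ = labC h2 P α β) : False :=
  S_neg hP h (fun h1 => by
    linear_combination (-(α + β)) * hh - h1) (fun h0 => hne (by
    linear_combination 2 * h0 + (β + γ) * hh))

include hh hP in
theorem AB {α β γ : ZMod k} (hne : β ≠ γ) (h : labA h2 P β γ = labB h2 P α γ) : False :=
  S_neg hP h (fun h1 => by
    linear_combination (-(β + γ)) * hh + h1) (fun h0 => hne (by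
    linear_combination 2 * h0 + (β + γ) * hh))

include hh hP in
theorem BC {α β γ : ZMod k} (hne : α ≠ γ) (h : labB h2 P α γ = labC h2 P α β) : False :=
  S_refl hP h (fun h1 => by
    unfold ee
    linear_combination (-(α + γ + 2)) * (2 * h2 + 1) * hh + h1) (fun h0 => hne (by
    unfold ee at h0
    linear_combination (-1) * h0 - (α + γ + 2) * (2 * h2 + 1) * hh))

theorem cast_ll (h3 : 3 ∣ k) (α β : ZMod k) :
    ZMod.castHom h3 (ZMod 3) (ll h3 α β) = ZMod.castHom h3 (ZMod 3) (α - β) := by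
  have h30 : (3 : ZMod 3) = 0 := rfl
  unfold ll
  split_ifs
  · have : ZMod.castHom h3 (ZMod 3) 3 = 3 := map_ofNat _ 3
    rw [show α + 2 * β = (α - β) + 3 * β by ring, map_add, map_mul, this, h30]
    ring
  · rfl

theorem labT_cases (h3 : 3 ∣ k) (α β : ZMod k) :
    (α = β ∧ labT h3 α β = (2, α)) ∨ (α + 2 * β = -1 ∧ labT h3 α β = (1, β)) ∨
      (ll h3 α β ≠ 0 ∧ ll h3 α β ≠ -1 ∧ labT h3 α β = (0, ll h3 α β)) := by
  by_cases h : ll h3 α β = 0
  · left
    have h' := cast_ll h3 α β
    rw [h, map_zero] at h'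
    refine ⟨?_, by simp [labT, h]⟩
    unfold ll at h
    rw [if_neg] at h
    · exact sub_eq_zero.1 h
    · rw [← h']; decide
  · right
    by_cases h1 : ll h3 α β = -1
    · left
      have h' := cast_ll h3 α β
      rw [h1, map_neg, map_one] at h'
      refine ⟨?_, by simp only [labT]; rw [if_neg h, if_pos h1]⟩
      unfold ll at h1
      rwa [if_pos] at h1
      rw [← h']; decide
    · right
      exact ⟨h, h1, by simp only [labT]; rw [if_neg h, if_neg h1]⟩

theorem ll_inj (h3 : 3 ∣ k) {α β α' β' : ZMod k} (h : ll h3 α β = ll h3 α' β') :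
    α - β = α' - β' ∨ α + 2 * β = α' + 2 * β' := by
  have h' := cast_ll h3 α β
  rw [h, cast_ll h3 α' β'] at h'
  by_cases h1 : ZMod.castHom h3 (ZMod 3) (α - β) = 2
  · right
    have h1' : ZMod.castHom h3 (ZMod 3) (α' - β') = 2 := by rw [h', h1]
    unfold ll at h
    rwa [if_pos h1, if_pos h1'] at h
  · left
    have h1' : ¬ ZMod.castHom h3 (ZMod 3) (α' - β') = 2 := by rw [h']; exact h1
    unfold ll at h
    rwa [if_neg h1, if_neg h1'] at h

/-- Equality of the labels of two cells of the third kind. -/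
theorem TT (h3 : 3 ∣ k) {α β α' β' : ZMod k} (h : labT h3 α β = labT h3 α' β') :
    α - β = α' - β' ∨ α + 2 * β = α' + 2 * β' := by
  rcases labT_cases h3 α β with ⟨h1, h1'⟩ | ⟨h1, h1'⟩ | ⟨h1, h1a, h1'⟩ <;>
  rcases labT_cases h3 α' β' with ⟨h4, h4'⟩ | ⟨h4, h4'⟩ | ⟨h4, h4a, h4'⟩ <;>
  rw [h1', h4'] at h <;> simp at h
  · left; rw [h1, h4]; ring
  · right; rw [h1, h4]
  · exact ll_inj h3 h

include hh in
theorem TA {α β γ : ZMod k} (h3 : 3 ∣ k) (hne : β ≠ γ) (h : labT h3 α β = labA h2 P β γ) :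
    False := by
  rcases labT_cases h3 α β with ⟨h1, h1'⟩ | ⟨h1, h1'⟩ | ⟨h1, h1a, h1'⟩ <;> rw [h1'] at h
  · have := (labS_two P h).1
    apply hne
    linear_combination (-2) * this + (β + γ) * hh - 2 * h1
  · have := (labS_one P h).1
    apply hne
    linear_combination (-2) * this + (β + γ) * hh
  · exact labS_ne _ _ _ _ h.symm

include hh in
theorem TC' {α α' β : ZMod k} (h3 : 3 ∣ k) (hne : α' ≠ β) (h : labT h3 α β = labC h2 P α' β) :
    False := by
  rcases labT_cases h3 α β with ⟨h1, h1'⟩ | ⟨h1, h1'⟩ | ⟨h1, h1a, h1'⟩ <;> rw [h1'] at h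
  · have := (labS_two P h).1
    apply hne
    linear_combination 2 * this - (α' + β) * hh + 2 * h1
  · have := (labS_one P h).1
    apply hne
    linear_combination 2 * this - (α' + β) * hh
  · exact labS_ne _ _ _ _ h.symm

include hh hP in
theorem TB {α β γ : ZMod k} (h3 : 3 ∣ k) (hne : α ≠ γ) (h : labT h3 α β = labB h2 P α γ) :
    False := by
  rcases labT_cases h3 α β with ⟨h1, h1'⟩ | ⟨h1, h1'⟩ | ⟨h1, h1a, h1'⟩ <;> rw [h1'] at h
  · obtain ⟨hf, hs⟩ := labS_two P h
    have hx : γ + h2 * h2 * (α + γ + 2) = ee α := by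
      unfold ee
      linear_combination (-5) * hf - (α + γ + 2) * (2 * h2 + 1) * hh
    have hg : γ - α = ee α := by
      linear_combination hx + hf
    rw [hf, hx] at hs
    have h0 : 2 * (0 : ZMod k) ≠ ee α := by
      rw [mul_zero, ← hg]
      intro h5
      exact hne (by linear_combination h5)
    have h6 := hP.refl (ee α) 0 h0
    rw [sub_zero] at h6
    have h7 := hP.zero (ee α)
    tauto
  · have := (labS_one P h).1
    apply hne
    linear_combination 4 * this + (α + γ + 2) * (2 * h2 + 1) * hh + 2 * h1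
  · exact labS_ne _ _ _ _ h.symm

include hh hP in
theorem TC {α β β' : ZMod k} (h3 : 3 ∣ k) (hne : α ≠ β') (h : labT h3 α β = labC h2 P α β') :
    False := by
  rcases labT_cases h3 α β with ⟨h1, h1'⟩ | ⟨h1, h1'⟩ | ⟨h1, h1a, h1'⟩ <;> rw [h1'] at h
  · have := (labS_two P h).1
    apply hne
    linear_combination (-2) * this + (α + β') * hh
  · obtain ⟨hf, hs⟩ := labS_one P h
    rw [hf] at hs
    refine hP.fix (ee β) _ ?_ hs
    unfold ee
    linear_combination 2 * h1
  · exact labS_ne _ _ _ _ h.symm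

include hh hP in
theorem TA' {α β β' γ : ZMod k} (h3 : 3 ∣ k) (hs : α + β + γ = -1) (hne : β' ≠ γ)
    (h : labT h3 α β = labA h2 P β' γ) : False := by
  rcases labT_cases h3 α β with ⟨h1, h1'⟩ | ⟨h1, h1'⟩ | ⟨h1, h1a, h1'⟩ <;> rw [h1'] at h
  · obtain ⟨hf, hp⟩ := labS_two P h
    rw [hf] at hp
    have h7 : β' - α = -(γ - α) := by
      linear_combination 2 * hf - (β' + γ) * hh
    have h5 : γ - α ≠ 0 := by
      intro h6
      apply hne
      linear_combination h7 - 2 * h6
    have h8 := hP.neg (ee α) _ h5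
    have h9 := hP.fix (ee α) (γ - α) (by
      unfold ee
      linear_combination 2 * hs + 2 * h1)
    rw [← h7] at h8
    tauto
  · have := (labS_one P h).1
    apply hne
    linear_combination 2 * this - (β' + γ) * hh + 2 * h1 - 2 * hs
  · exact labS_ne _ _ _ _ h.symm

include hh hP in
theorem TB' {α α' β γ : ZMod k} (h3 : 3 ∣ k) (hs : α + β + γ = -1) (hne : α' ≠ γ)
    (h : labT h3 α β = labB h2 P α' γ) : False := by
  rcases labT_cases h3 α β with ⟨h1, h1'⟩ | ⟨h1, h1'⟩ | ⟨h1, h1a, h1'⟩ <;> rw [h1'] at h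
  · have := (labS_two P h).1
    apply hne
    linear_combination (-4) * this - (α' + γ + 2) * (2 * h2 + 1) * hh - 2 * hs - 2 * h1
  · obtain ⟨hf, hp⟩ := labS_one P h
    have h4 : γ = β := by linear_combination hs - h1
    have h5 : γ + h2 * h2 * (α' + γ + 2) = 0 := by linear_combination h4 - hf
    rw [h5] at hp
    exact hP.zero _ hp
  · exact labS_ne _ _ _ _ h.symm

end Labels

end Pool.Agent.LT77
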