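import Mathlib
import Pool.Agent.LT77.Labels

set_option autoImplicit false

namespace Pool.Agent.LT77

/-- Admissible triples modulo `N`. -/
def Adm (N : ℕ) (a b c : ℤ) : Prop :=
  ¬ (N : ℤ) ∣ a ∧ ¬ (N : ℤ) ∣ b ∧ ¬ (N : ℤ) ∣ c ∧ (N : ℤ) ∣ a + b + c

structure Good (N : ℕ) (s : ℤ → ℤ → ℤ → ℕ) : Prop where
  per : ∀ a b c a' b' c' : ℤ, (N : ℤ) ∣ a - a' → (N : ℤ) ∣ b - b' → (N : ℤ) ∣ c - c' →
    s a b c = s a' b' c'
  neg : ∀ a b c, Adm N a b c → s (-a) (-b) (-c) = s a b c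
  lt : ∀ a b c, Adm N a b c → s a b c + 2 < N
  i1 : ∀ a b c b' c', Adm N a b c → Adm N a b' c' → s a b c = s a b' c' → (N : ℤ) ∣ b - b'
  i2 : ∀ a b c a' c', Adm N a b c → Adm N a' b c' → s a b c = s a' b c' → (N : ℤ) ∣ a - a'
  i3 : ∀ a b c a' b', Adm N a b c → Adm N a' b' c → s a b c = s a' b' c → (N : ℤ) ∣ a - a'

def tt (k : ℕ) (x : ℤ) : ZMod k :=
  if x % 3 = 2 then (((-x) / 3 : ℤ) : ZMod k) else ((x / 3 : ℤ) : ZMod k)

theorem castEq {k : ℕ} {x y : ℤ} : ((x : ℤ) : ZMod k) = ((y : ℤ) : ZMod k) ↔ (k : ℤ) ∣ x - y := by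
  rw [← sub_eq_zero, ← Int.cast_sub, ZMod.intCast_zmod_eq_zero_iff_dvd]

theorem dvd3 {k : ℕ} {z w : ℤ} (h : w = 3 * z) : ((3 * k : ℕ) : ℤ) ∣ w ↔ (k : ℤ) ∣ z := by
  subst h
  push_cast
  constructor
  · intro h
    exact Int.dvd_of_mul_dvd_mul_left (by norm_num) h
  · intro h
    exact mul_dvd_mul_left 3 h

theorem tt_inj {k : ℕ} {x y : ℤ} (h : x % 3 = y % 3) (ht : tt k x = tt k y) :
    ((3 * k : ℕ) : ℤ) ∣ x - y := by
  unfold tt at ht
  by_cases h2 : x % 3 = 2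
  · rw [if_pos h2, if_pos (by rw [← h]; exact h2), castEq] at ht
    have e : y - x = 3 * ((-x) / 3 - (-y) / 3) := by omega
    have := (dvd3 (k := k) e).2 ht
    rw [← neg_sub]
    exact (dvd_neg).2 this
  · rw [if_neg h2, if_neg (by rw [← h]; exact h2), castEq] at ht
    exact (dvd3 (by omega)).2 ht

theorem tt_congr {k : ℕ} {x y : ℤ} (h : ((3 * k : ℕ) : ℤ) ∣ x - y) :
    x % 3 = y % 3 ∧ tt k x = tt k y ∧ (k : ℤ) ∣ x / 3 - y / 3 := by
  have h3 : x % 3 = y % 3 := by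
    obtain ⟨z, hz⟩ := h
    push_cast at hz
    have : x = y + 3 * ((k : ℤ) * z) := by linarith [hz, mul_assoc (3 : ℤ) k z]
    omega
  refine ⟨h3, ?_, ?_⟩
  · unfold tt
    by_cases h2 : x % 3 = 2
    · rw [if_pos h2, if_pos (by rw [← h3]; exact h2), castEq]
      have e : y - x = 3 * ((-x) / 3 - (-y) / 3) := by omega
      refine (dvd3 e).1 ?_
      rw [← neg_sub]
      exact (dvd_neg).2 h
    · rw [if_neg h2, if_neg (by rw [← h3]; exact h2), castEq]
      exact (dvd3 (by omega)).1 h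
  · exact (dvd3 (by omega)).1 h

theorem tt_neg {k : ℕ} {x : ℤ} (h : x % 3 ≠ 0) : tt k (-x) = tt k x := by
  unfold tt
  by_cases h2 : x % 3 = 2
  · rw [if_pos h2, if_neg (by omega)]
  · rw [if_neg h2, if_pos (by omega), neg_neg]

/-- The label of a cell. -/
noncomputable def L {k : ℕ} (h3 : 3 ∣ k) (h2 : ZMod k) (P : ZMod k → ZMod k → Prop)
    (s : ℤ → ℤ → ℤ → ℕ) (a b c : ℤ) : ℕ × ZMod k :=
  if a % 3 = 0 then
    if b % 3 = 0 then (0, ((s (a / 3) (b / 3) (c / 3) + 1 : ℕ) : ZMod k))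
    else labA h2 P (tt k b) (tt k c)
  else if b % 3 = 0 then labB h2 P (tt k a) (tt k c)
  else if c % 3 = 0 then labC h2 P (tt k a) (tt k b)
  else labT h3 (tt k a) (tt k b)

section

variable {k : ℕ} (h3 : 3 ∣ k) (h2 : ZMod k) (P : ZMod k → ZMod k → Prop) (s : ℤ → ℤ → ℤ → ℕ)

/-- All the cells. -/
theorem cls {a b c : ℤ} (h : Adm (3 * k) a b c) :
    (a % 3 = 0 ∧ b % 3 = 0 ∧ c % 3 = 0 ∧ Adm k (a / 3) (b / 3) (c / 3) ∧
      L h3 h2 P s a b c = (0, ((s (a / 3) (b / 3) (c / 3) + 1 : ℕ) : ZMod k))) ∨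
    (a % 3 = 0 ∧ tt k b ≠ tt k c ∧ L h3 h2 P s a b c = labA h2 P (tt k b) (tt k c) ∧
      ((b % 3 = 1 ∧ c % 3 = 2 ∧ ((a / 3 : ℤ) : ZMod k) = tt k c - tt k b) ∨
       (b % 3 = 2 ∧ c % 3 = 1 ∧ ((a / 3 : ℤ) : ZMod k) = tt k b - tt k c))) ∨
    (b % 3 = 0 ∧ tt k a ≠ tt k c ∧ L h3 h2 P s a b c = labB h2 P (tt k a) (tt k c) ∧
      ((a % 3 = 1 ∧ c % 3 = 2 ∧ ((b / 3 : ℤ) : ZMod k) = tt k c - tt k a) ∨
       (a % 3 = 2 ∧ c % 3 = 1 ∧ ((b / 3 : ℤ) : ZMod k) = tt k a - tt k c))) ∨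
    (c % 3 = 0 ∧ tt k a ≠ tt k b ∧ L h3 h2 P s a b c = labC h2 P (tt k a) (tt k b) ∧
      ((a % 3 = 1 ∧ b % 3 = 2 ∧ ((c / 3 : ℤ) : ZMod k) = tt k b - tt k a) ∨
       (a % 3 = 2 ∧ b % 3 = 1 ∧ ((c / 3 : ℤ) : ZMod k) = tt k a - tt k b))) ∨
    (tt k a + tt k b + tt k c = -1 ∧ L h3 h2 P s a b c = labT h3 (tt k a) (tt k b) ∧
      ((a % 3 = 1 ∧ b % 3 = 1 ∧ c % 3 = 1) ∨ (a % 3 = 2 ∧ b % 3 = 2 ∧ c % 3 = 2))) := by
  obtain ⟨ha, hb, hc, hs⟩ := h
  have hs3 : (a + b + c) % 3 = 0 := by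
    obtain ⟨z, hz⟩ := hs
    push_cast at hz
    have : a + b + c = 3 * ((k : ℤ) * z) := by linarith [hz, mul_assoc (3 : ℤ) k z]
    omega
  have h03 : a % 3 = 0 ∨ a % 3 = 1 ∨ a % 3 = 2 := by omega
  have h13 : b % 3 = 0 ∨ b % 3 = 1 ∨ b % 3 = 2 := by omega
  -- conversions
  have cv : ∀ z : ℤ, a + b + c = 3 * z → ((z : ℤ) : ZMod k) = 0 := by
    intro z hz
    rw [ZMod.intCast_zmod_eq_zero_iff_dvd]
    exact (dvd3 hz).1 hs
  rcases h03 with h0 | h0 | h0 <;> rcases h13 with h1 | h1 | h1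
  · left
    have h4 : c % 3 = 0 := by omega
    refine ⟨h0, h1, h4, ⟨?_, ?_, ?_, ?_⟩, ?_⟩
    · intro h; exact ha ((dvd3 (by omega)).2 h)
    · intro h; exact hb ((dvd3 (by omega)).2 h)
    · intro h; exact hc ((dvd3 (by omega)).2 h)
    · exact (dvd3 (by omega)).1 hs
    · simp only [L]; rw [if_pos h0, if_pos h1]
  · right; left
    have h4 : c % 3 = 2 := by omega
    have e := cv (a / 3 + b / 3 - (-c) / 3) (by omega)
    have e2 : tt k b = ((b / 3 : ℤ) : ZMod k) := by unfold tt; rw [if_neg (by omega)]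
    have e3 : tt k c = (((-c) / 3 : ℤ) : ZMod k) := by unfold tt; rw [if_pos h4]
    have e4 : ((a / 3 : ℤ) : ZMod k) = tt k c - tt k b := by
      rw [e2, e3]; push_cast at e ⊢; linear_combination e
    refine ⟨h0, ?_, ?_, Or.inl ⟨h1, h4, e4⟩⟩
    · intro h
      apply ha
      rw [h, sub_self, ZMod.intCast_zmod_eq_zero_iff_dvd] at e4
      exact (dvd3 (by omega)).2 e4
    · simp only [L]; rw [if_pos h0, if_neg (by omega)]
  · right; left
    have h4 : c % 3 = 1 := by omega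
    have e := cv (a / 3 - (-b) / 3 + c / 3) (by omega)
    have e2 : tt k c = ((c / 3 : ℤ) : ZMod k) := by unfold tt; rw [if_neg (by omega)]
    have e3 : tt k b = (((-b) / 3 : ℤ) : ZMod k) := by unfold tt; rw [if_pos h1]
    have e4 : ((a / 3 : ℤ) : ZMod k) = tt k b - tt k c := by
      rw [e2, e3]; push_cast at e ⊢; linear_combination e
    refine ⟨h0, ?_, ?_, Or.inr ⟨h1, h4, e4⟩⟩
    · intro h
      apply ha
      rw [h, sub_self, ZMod.intCast_zmod_eq_zero_iff_dvd] at e4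
      exact (dvd3 (by omega)).2 e4
    · simp only [L]; rw [if_pos h0, if_neg (by omega)]
  · right; right; left
    have h4 : c % 3 = 2 := by omega
    have e := cv (b / 3 + a / 3 - (-c) / 3) (by omega)
    have e2 : tt k a = ((a / 3 : ℤ) : ZMod k) := by unfold tt; rw [if_neg (by omega)]
    have e3 : tt k c = (((-c) / 3 : ℤ) : ZMod k) := by unfold tt; rw [if_pos h4]
    have e4 : ((b / 3 : ℤ) : ZMod k) = tt k c - tt k a := by
      rw [e2, e3]; push_cast at e ⊢; linear_combination e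
    refine ⟨h1, ?_, ?_, Or.inl ⟨h0, h4, e4⟩⟩
    · intro h
      apply hb
      rw [h, sub_self, ZMod.intCast_zmod_eq_zero_iff_dvd] at e4
      exact (dvd3 (by omega)).2 e4
    · simp only [L]; rw [if_neg (by omega), if_pos h1]
  · right; right; right; right
    have h4 : c % 3 = 1 := by omega
    have e := cv (a / 3 + b / 3 + c / 3 + 1) (by omega)
    have e1 : tt k a = ((a / 3 : ℤ) : ZMod k) := by unfold tt; rw [if_neg (by omega)]
    have e2 : tt k b = ((b / 3 : ℤ) : ZMod k) := by unfold tt; rw [if_neg (by omega)]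
    have e3 : tt k c = ((c / 3 : ℤ) : ZMod k) := by unfold tt; rw [if_neg (by omega)]
    refine ⟨?_, ?_, Or.inl ⟨h0, h1, h4⟩⟩
    · rw [e1, e2, e3]; push_cast at e ⊢; linear_combination e
    · simp only [L]; rw [if_neg (by omega), if_neg (by omega), if_neg (by omega)]
  · right; right; right; left
    have h4 : c % 3 = 0 := by omega
    have e := cv (c / 3 + a / 3 - (-b) / 3) (by omega)
    have e2 : tt k a = ((a / 3 : ℤ) : ZMod k) := by unfold tt; rw [if_neg (by omega)]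
    have e3 : tt k b = (((-b) / 3 : ℤ) : ZMod k) := by unfold tt; rw [if_pos h1]
    have e4 : ((c / 3 : ℤ) : ZMod k) = tt k b - tt k a := by
      rw [e2, e3]; push_cast at e ⊢; linear_combination e
    refine ⟨h4, ?_, ?_, Or.inl ⟨h0, h1, e4⟩⟩
    · intro h
      apply hc
      rw [h, sub_self, ZMod.intCast_zmod_eq_zero_iff_dvd] at e4
      exact (dvd3 (by omega)).2 e4
    · simp only [L]; rw [if_neg (by omega), if_neg (by omega), if_pos h4]
  · right; right; left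
    have h4 : c % 3 = 1 := by omega
    have e := cv (b / 3 - (-a) / 3 + c / 3) (by omega)
    have e2 : tt k c = ((c / 3 : ℤ) : ZMod k) := by unfold tt; rw [if_neg (by omega)]
    have e3 : tt k a = (((-a) / 3 : ℤ) : ZMod k) := by unfold tt; rw [if_pos h0]
    have e4 : ((b / 3 : ℤ) : ZMod k) = tt k a - tt k c := by
      rw [e2, e3]; push_cast at e ⊢; linear_combination e
    refine ⟨h1, ?_, ?_, Or.inr ⟨h0, h4, e4⟩⟩
    · intro h
      apply hb
      rw [h, sub_self, ZMod.intCast_zmod_eq_zero_iff_dvd] at e4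
      exact (dvd3 (by omega)).2 e4
    · simp only [L]; rw [if_neg (by omega), if_pos h1]
  · right; right; right; left
    have h4 : c % 3 = 0 := by omega
    have e := cv (c / 3 - (-a) / 3 + b / 3) (by omega)
    have e2 : tt k b = ((b / 3 : ℤ) : ZMod k) := by unfold tt; rw [if_neg (by omega)]
    have e3 : tt k a = (((-a) / 3 : ℤ) : ZMod k) := by unfold tt; rw [if_pos h0]
    have e4 : ((c / 3 : ℤ) : ZMod k) = tt k a - tt k b := by
      rw [e2, e3]; push_cast at e ⊢; linear_combination e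
    refine ⟨h4, ?_, ?_, Or.inr ⟨h0, h1, e4⟩⟩
    · intro h
      apply hc
      rw [h, sub_self, ZMod.intCast_zmod_eq_zero_iff_dvd] at e4
      exact (dvd3 (by omega)).2 e4
    · simp only [L]; rw [if_neg (by omega), if_neg (by omega), if_pos h4]
  · right; right; right; right
    have h4 : c % 3 = 2 := by omega
    have e := cv (-((-a) / 3 + (-b) / 3 + (-c) / 3 + 1)) (by omega)
    have e1 : tt k a = (((-a) / 3 : ℤ) : ZMod k) := by unfold tt; rw [if_pos h0]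
    have e2 : tt k b = (((-b) / 3 : ℤ) : ZMod k) := by unfold tt; rw [if_pos h1]
    have e3 : tt k c = (((-c) / 3 : ℤ) : ZMod k) := by unfold tt; rw [if_pos h4]
    refine ⟨?_, ?_, Or.inr ⟨h0, h1, h4⟩⟩
    · rw [e1, e2, e3]; push_cast at e ⊢; linear_combination (-1) * e
    · simp only [L]; rw [if_neg (by omega), if_neg (by omega), if_neg (by omega)]

end

end Pool.Agent.LT77
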