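import Mathlib
import Pool.Agent.LT77.Cells

set_option autoImplicit false

namespace Pool.Agent.LT77

/-- `p = (a, b, c)` is a cell of the triangle of order `n`. -/
def IsCell (n : ℕ) (p : ℕ × ℕ × ℕ) : Prop :=
  1 ≤ p.1 ∧ 1 ≤ p.2.1 ∧ 1 ≤ p.2.2 ∧ p.1 + p.2.1 + p.2.2 = n + 2

/-- The number of lines in each of the three directions. -/
def numLines (n : ℕ) : ℕ := if Odd n then (n + 1) / 2 else n / 2

/-- Row number `r` is a part of line number `i`. -/
def InLine (n i r : ℕ) : Prop :=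
  if Odd n then (r = i ∨ (2 ≤ i ∧ r = n + 2 - i)) else (r = i ∨ r = n + 1 - i)

/-- The number of symbols. -/
def numSymbols (n : ℕ) : ℕ := if Odd n then n else n + 1

/-- The filling `s` of the triangle of order `n` with the symbols `0, 1, ...` is a latin
triangle. -/
def IsLatinTriangle (n : ℕ) (s : ℕ × ℕ × ℕ → ℕ) : Prop :=
  (∀ p, IsCell n p → s p < numSymbols n) ∧
  ∀ i, 1 ≤ i → i ≤ numLines n → ∀ v < numSymbols n,
    (∃! p, IsCell n p ∧ InLine n i p.1 ∧ s p = v) ∧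
    (∃! p, IsCell n p ∧ InLine n i p.2.1 ∧ s p = v) ∧
    (∃! p, IsCell n p ∧ InLine n i p.2.2 ∧ s p = v)

/-- There is a latin triangle of order `n`. -/
def HasLatinTriangle (n : ℕ) : Prop := ∃ s, IsLatinTriangle n s

theorem ndvd {N : ℕ} {x : ℤ} (h1 : 0 < x) (h2 : x < N) : ¬ (N : ℤ) ∣ x := by
  intro h
  have := Int.le_of_dvd h1 h
  omega

theorem eq_of_dvd {N : ℕ} {x : ℤ} (h : (N : ℤ) ∣ x) (h1 : -(N : ℤ) < x) (h2 : x < N) : x = 0 := by
  obtain ⟨z, hz⟩ := h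
  have hN : (0 : ℤ) < N := by omega
  have h3 : z < 1 := by
    by_contra hc
    have : (N : ℤ) * 1 ≤ N * z := mul_le_mul_of_nonneg_left (by omega) hN.le
    omega
  have h4 : -1 < z := by
    by_contra hc
    have : (N : ℤ) * z ≤ N * (-1) := mul_le_mul_of_nonneg_left (by omega) hN.le
    omega
  have : z = 0 := by omega
  rw [hz, this, mul_zero]

section B

variable {n : ℕ} (g : ℤ → ℤ → ℤ → ℕ)
  (per : ∀ a b c a' b' c' : ℤ, ((n + 2 : ℕ) : ℤ) ∣ a - a' → ((n + 2 : ℕ) : ℤ) ∣ b - b' →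
    ((n + 2 : ℕ) : ℤ) ∣ c - c' → g a b c = g a' b' c')
  (neg : ∀ a b c, Adm (n + 2) a b c → g (-a) (-b) (-c) = g a b c)
  (lt : ∀ a b c, Adm (n + 2) a b c → g a b c + 2 < n + 2)
  (i1 : ∀ a b c b' c', Adm (n + 2) a b c → Adm (n + 2) a b' c' → g a b c = g a b' c' →
    ((n + 2 : ℕ) : ℤ) ∣ b - b')

theorem adm_of_cell {a b c : ℕ} (h : IsCell n (a, b, c)) : Adm (n + 2) a b c := by
  obtain ⟨h1, h2, h3, h4⟩ := h
  simp only at h1 h2 h3 h4
  refine ⟨ndvd (by omega) (by push_cast; omega), ndvd (by omega) (by push_cast; omega),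
    ndvd (by omega) (by push_cast; omega), ?_⟩
  rw [show (a : ℤ) + b + c = ((n + 2 : ℕ) : ℤ) by omega]

include per neg lt i1 in
theorem lineB_ex {i v : ℕ} (h1 : 1 ≤ i) (h2 : 2 * i ≤ n + 1) (hv : v < n) :
    ∃ a b c : ℕ, IsCell n (a, b, c) ∧ (a = i ∨ (2 ≤ i ∧ a = n + 2 - i)) ∧ g a b c = v := by
  have hadm : ∀ b : ℕ, 0 < b → b < n + 2 → b ≠ n + 2 - i →
      Adm (n + 2) (i : ℤ) (b : ℤ) (-i - b : ℤ) := by
    intro b hb1 hb2 hb3
    refine ⟨ndvd (by omega) (by push_cast; omega), ndvd (by omega) (by push_cast; omega), ?_, ?_⟩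
    · intro h
      have h' : ((n + 2 : ℕ) : ℤ) ∣ (i + b - (n + 2 : ℕ) : ℤ) := by
        have := dvd_sub ((dvd_neg).2 h) (dvd_refl ((n + 2 : ℕ) : ℤ))
        rwa [show (-(-(i : ℤ) - b) - ((n + 2 : ℕ) : ℤ)) = (i + b - (n + 2 : ℕ) : ℤ) by ring] at this
      have := eq_of_dvd h' (by push_cast; omega) (by push_cast; omega)
      push_cast at this
      omega
    · rw [show (i : ℤ) + b + (-i - b) = 0 by ring]
      exact dvd_zero _
  let D : Finset ℕ := (Finset.Ioo 0 (n + 2)).erase (n + 2 - i)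
  have hD : D.card = n := by
    simp only [D]
    rw [Finset.card_erase_of_mem (by rw [Finset.mem_Ioo]; omega), Nat.card_Ioo]
    omega
  have hmemD : ∀ b ∈ D, 0 < b ∧ b < n + 2 ∧ b ≠ n + 2 - i := by
    intro b hb
    simp only [D, Finset.mem_erase, Finset.mem_Ioo] at hb
    omega
  let φ : ℕ → ℕ := fun b => g i b (-i - b)
  have hinj : Set.InjOn φ (D : Set ℕ) := by
    intro b hb b' hb' he
    obtain ⟨x1, x2, x3⟩ := hmemD b hb
    obtain ⟨y1, y2, y3⟩ := hmemD b' hb'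
    have := i1 _ _ _ _ _ (hadm b x1 x2 x3) (hadm b' y1 y2 y3) he
    have := eq_of_dvd this (by push_cast; omega) (by push_cast; omega)
    omega
  have hsub : D.image φ ⊆ Finset.range n := by
    intro w hw
    rw [Finset.mem_image] at hw
    obtain ⟨b, hb, rfl⟩ := hw
    obtain ⟨x1, x2, x3⟩ := hmemD b hb
    have := lt _ _ _ (hadm b x1 x2 x3)
    rw [Finset.mem_range]
    simp only [φ]
    omega
  have himg : D.image φ = Finset.range n := by
    apply Finset.eq_of_subset_of_card_le hsub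
    rw [Finset.card_image_of_injOn hinj, hD, Finset.card_range]
  have hv' : v ∈ D.image φ := by rw [himg, Finset.mem_range]; exact hv
  rw [Finset.mem_image] at hv'
  obtain ⟨b, hb, hbv⟩ := hv'
  obtain ⟨x1, x2, x3⟩ := hmemD b hb
  have had := hadm b x1 x2 x3
  rcases lt_or_ge (i + b) (n + 2) with h | h
  · refine ⟨i, b, n + 2 - i - b, ⟨h1, x1, ?_, ?_⟩, Or.inl rfl, ?_⟩
    · simp only; omega
    · simp only; omega
    · rw [← hbv]
      refine per _ _ _ _ _ _ (by simp) (by simp) ?_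
      rw [show (((n + 2 - i - b : ℕ) : ℤ) - (-i - b)) = ((n + 2 : ℕ) : ℤ) by omega]
  · refine ⟨n + 2 - i, n + 2 - b, i + b - (n + 2), ⟨?_, ?_, ?_, ?_⟩, Or.inr ⟨?_, rfl⟩, ?_⟩
    · simp only; omega
    · simp only; omega
    · simp only; omega
    · simp only; omega
    · omega
    · rw [← hbv]
      have e := neg _ _ _ had
      simp only [φ]
      rw [← e]
      refine per _ _ _ _ _ _ ?_ ?_ ?_
      · rw [show (((n + 2 - i : ℕ) : ℤ) - (-i)) = ((n + 2 : ℕ) : ℤ) by omega]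
      · rw [show (((n + 2 - b : ℕ) : ℤ) - (-b)) = ((n + 2 : ℕ) : ℤ) by omega]
      · rw [show (((i + b - (n + 2) : ℕ) : ℤ) - (-(-i - b))) = -((n + 2 : ℕ) : ℤ) by omega]
        exact (dvd_neg).2 dvd_rfl

include per neg i1 in
theorem lineB_un {i : ℕ} (h1 : 1 ≤ i) (h2 : 2 * i ≤ n + 1) {a b c a' b' c' : ℕ}
    (h : IsCell n (a, b, c)) (h' : IsCell n (a', b', c'))
    (hl : a = i ∨ (2 ≤ i ∧ a = n + 2 - i)) (hl' : a' = i ∨ (2 ≤ i ∧ a' = n + 2 - i))
    (he : g a b c = g a' b' c') : a = a' ∧ b = b' ∧ c = c' := by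
  have had := adm_of_cell h
  have had' := adm_of_cell h'
  obtain ⟨x1, x2, x3, x4⟩ := h
  obtain ⟨y1, y2, y3, y4⟩ := h'
  simp only at x1 x2 x3 x4 y1 y2 y3 y4
  have hcase : a = a' ∨ a + a' = n + 2 := by omega
  rcases hcase with hc | hc
  · subst hc
    have := i1 _ _ _ _ _ had had' he
    have := eq_of_dvd this (by push_cast; omega) (by push_cast; omega)
    omega
  · exfalso
    have hz : Adm (n + 2) (a : ℤ) (-b' : ℤ) (-c' : ℤ) := by
      refine ⟨had.1, ?_, ?_, ?_⟩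
      · rw [dvd_neg]; exact had'.2.1
      · rw [dvd_neg]; exact had'.2.2.1
      · rw [show (a : ℤ) + -b' + -c' = 0 by omega]
        exact dvd_zero _
    have e1 : g a' b' c' = g a (-b') (-c') := by
      rw [← neg _ _ _ had']
      refine per _ _ _ _ _ _ ?_ (by simp) (by simp)
      rw [show (-(a' : ℤ) - a) = -((n + 2 : ℕ) : ℤ) by omega]
      exact (dvd_neg).2 dvd_rfl
    rw [e1] at he
    have := i1 _ _ _ _ _ had hz he
    have := eq_of_dvd this (by push_cast; omega) (by push_cast; omega)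
    omega

end B

theorem good_to_lt {n : ℕ} (hn : Odd n) {s : ℤ → ℤ → ℤ → ℕ} (hs : Good (n + 2) s) : HasLatinTriangle n := by
  refine ⟨fun p => s p.1 p.2.1 p.2.2, ?_, ?_⟩
  · rintro ⟨a, b, c⟩ h
    have := hs.lt _ _ _ (adm_of_cell h)
    simp only [numSymbols, if_pos hn]
    omega
  · intro i h1 h2 v hv
    simp only [numSymbols, if_pos hn] at hv
    simp only [numLines, if_pos hn] at h2
    simp only [InLine, if_pos hn]
    have h2' : 2 * i ≤ n + 1 := by omega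
    have a2 : ∀ a b c : ℤ, Adm (n + 2) a b c → Adm (n + 2) b a c := by
      rintro a b c ⟨q1, q2, q3, q4⟩
      exact ⟨q2, q1, q3, by rwa [add_comm b a]⟩
    have a3 : ∀ a b c : ℤ, Adm (n + 2) c a b → Adm (n + 2) a b c := by
      rintro a b c ⟨q1, q2, q3, q4⟩
      exact ⟨q2, q3, q1, by rwa [show a + b + c = c + a + b by ring]⟩
    refine ⟨?_, ?_, ?_⟩
    · obtain ⟨a, b, c, q1, q2, q3⟩ := lineB_ex s hs.per hs.neg hs.lt hs.i1 h1 h2' hv
      refine ⟨(a, b, c), ⟨q1, q2, q3⟩, ?_⟩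
      rintro ⟨a', b', c'⟩ ⟨r1, r2, r3⟩
      obtain ⟨e1, e2, e3⟩ := lineB_un s hs.per hs.neg hs.i1 h1 h2' r1 q1 r2 q2 (r3.trans q3.symm)
      rw [e1, e2, e3]
    · have per' : ∀ a b c a' b' c' : ℤ, ((n + 2 : ℕ) : ℤ) ∣ a - a' → ((n + 2 : ℕ) : ℤ) ∣ b - b' →
          ((n + 2 : ℕ) : ℤ) ∣ c - c' → s b a c = s b' a' c' :=
        fun a b c a' b' c' q1 q2 q3 => hs.per _ _ _ _ _ _ q2 q1 q3
      have neg' : ∀ a b c, Adm (n + 2) a b c → s (-b) (-a) (-c) = s b a c :=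
        fun a b c q => hs.neg _ _ _ (a2 _ _ _ q)
      have lt' : ∀ a b c, Adm (n + 2) a b c → s b a c + 2 < n + 2 :=
        fun a b c q => hs.lt _ _ _ (a2 _ _ _ q)
      have i1' : ∀ a b c b' c', Adm (n + 2) a b c → Adm (n + 2) a b' c' → s b a c = s b' a c' →
          ((n + 2 : ℕ) : ℤ) ∣ b - b' :=
        fun a b c b' c' q q' he => hs.i2 _ _ _ _ _ (a2 _ _ _ q) (a2 _ _ _ q') he
      obtain ⟨a, b, c, q1, q2, q3⟩ := lineB_ex (fun a b c => s b a c) per' neg' lt' i1' h1 h2' hv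
      refine ⟨(b, a, c), ⟨?_, q2, q3⟩, ?_⟩
      · obtain ⟨w1, w2, w3, w4⟩ := q1
        exact ⟨w2, w1, w3, by simp only at w4 ⊢; omega⟩
      rintro ⟨a', b', c'⟩ ⟨r1, r2, r3⟩
      have r1' : IsCell n (b', a', c') := by
        obtain ⟨w1, w2, w3, w4⟩ := r1
        exact ⟨w2, w1, w3, by simp only at w4 ⊢; omega⟩
      obtain ⟨e1, e2, e3⟩ := lineB_un (fun a b c => s b a c) per' neg' i1' h1 h2' r1' q1 r2 q2
        (r3.trans q3.symm)
      rw [e1, e2, e3]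
    · have per' : ∀ a b c a' b' c' : ℤ, ((n + 2 : ℕ) : ℤ) ∣ a - a' → ((n + 2 : ℕ) : ℤ) ∣ b - b' →
          ((n + 2 : ℕ) : ℤ) ∣ c - c' → s b c a = s b' c' a' :=
        fun a b c a' b' c' q1 q2 q3 => hs.per _ _ _ _ _ _ q2 q3 q1
      have neg' : ∀ a b c, Adm (n + 2) a b c → s (-b) (-c) (-a) = s b c a :=
        fun a b c q => hs.neg _ _ _ (a3 _ _ _ q)
      have lt' : ∀ a b c, Adm (n + 2) a b c → s b c a + 2 < n + 2 :=
        fun a b c q => hs.lt _ _ _ (a3 _ _ _ q)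
      have i1' : ∀ a b c b' c', Adm (n + 2) a b c → Adm (n + 2) a b' c' → s b c a = s b' c' a →
          ((n + 2 : ℕ) : ℤ) ∣ b - b' :=
        fun a b c b' c' q q' he => hs.i3 _ _ _ _ _ (a3 _ _ _ q) (a3 _ _ _ q') he
      obtain ⟨a, b, c, q1, q2, q3⟩ := lineB_ex (fun a b c => s b c a) per' neg' lt' i1' h1 h2' hv
      refine ⟨(b, c, a), ⟨?_, q2, q3⟩, ?_⟩
      · obtain ⟨w1, w2, w3, w4⟩ := q1
        exact ⟨w2, w3, w1, by simp only at w4 ⊢; omega⟩
      rintro ⟨a', b', c'⟩ ⟨r1, r2, r3⟩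
      have r1' : IsCell n (c', a', b') := by
        obtain ⟨w1, w2, w3, w4⟩ := r1
        exact ⟨w3, w1, w2, by simp only at w4 ⊢; omega⟩
      obtain ⟨e1, e2, e3⟩ := lineB_un (fun a b c => s b c a) per' neg' i1' h1 h2' r1' q1 r2 q2
        (r3.trans q3.symm)
      rw [e1, e2, e3]

end Pool.Agent.LT77
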