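import Mathlib
import Pool.Agent.LT77.Back

set_option autoImplicit false

namespace Pool.Agent.LT77

/-- The function on integer triples given by a filling. -/
def ext (n : ℕ) (s : ℕ × ℕ × ℕ → ℕ) (a b c : ℤ) : ℕ :=
  let A := (a % ((n + 2 : ℕ) : ℤ)).toNat
  let B := (b % ((n + 2 : ℕ) : ℤ)).toNat
  let C := (c % ((n + 2 : ℕ) : ℤ)).toNat
  if A + B + C = n + 2 then s (A, B, C) else s (n + 2 - A, n + 2 - B, n + 2 - C)

theorem ext_rep {n : ℕ} {a b c : ℤ} (h : Adm (n + 2) a b c) :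
    ∃ A B C : ℕ, 0 < A ∧ A < n + 2 ∧ 0 < B ∧ B < n + 2 ∧ 0 < C ∧ C < n + 2 ∧
      (A + B + C = n + 2 ∨ A + B + C = 2 * (n + 2)) ∧
      a % ((n + 2 : ℕ) : ℤ) = A ∧ b % ((n + 2 : ℕ) : ℤ) = B ∧ c % ((n + 2 : ℕ) : ℤ) = C := by
  obtain ⟨h1, h2, h3, h4⟩ := h
  have hN : (0 : ℤ) < ((n + 2 : ℕ) : ℤ) := by push_cast; omega
  have key : ∀ x : ℤ, ¬ ((n + 2 : ℕ) : ℤ) ∣ x →
      ∃ X : ℕ, 0 < X ∧ X < n + 2 ∧ x % ((n + 2 : ℕ) : ℤ) = X := by
    intro x hx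
    have e1 := Int.emod_nonneg x hN.ne'
    have e2 := Int.emod_lt_of_pos x hN
    have e3 : x % ((n + 2 : ℕ) : ℤ) ≠ 0 := fun h => hx (Int.dvd_of_emod_eq_zero h)
    refine ⟨(x % ((n + 2 : ℕ) : ℤ)).toNat, by omega, by omega, by omega⟩
  obtain ⟨A, a1, a2, a3⟩ := key a h1
  obtain ⟨B, b1, b2, b3⟩ := key b h2
  obtain ⟨C, c1, c2, c3⟩ := key c h3
  refine ⟨A, B, C, a1, a2, b1, b2, c1, c2, ?_, a3, b3, c3⟩
  have e : ((n + 2 : ℕ) : ℤ) ∣ (A : ℤ) + B + C := by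
    rw [← a3, ← b3, ← c3]
    have := Int.dvd_sub h4 (dvd_add (dvd_add (Int.dvd_self_sub_emod (x := a) (m := ((n + 2 : ℕ) : ℤ)))
      (Int.dvd_self_sub_emod (x := b) (m := ((n + 2 : ℕ) : ℤ))))
      (Int.dvd_self_sub_emod (x := c) (m := ((n + 2 : ℕ) : ℤ))))
    ring_nf at this ⊢
    exact this
  have e2 : (n + 2) ∣ A + B + C := by
    have : (((n + 2 : ℕ)) : ℤ) ∣ ((A + B + C : ℕ) : ℤ) := by push_cast at e ⊢; exact e
    exact Int.natCast_dvd_natCast.1 this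
  obtain ⟨z, hz⟩ := e2
  have hz1 : 0 < z := by
    rcases Nat.eq_zero_or_pos z with h | h
    · subst h; omega
    · exact h
  have hz2 : z < 3 := by
    by_contra hc
    have : (n + 2) * 3 ≤ (n + 2) * z := Nat.mul_le_mul_left _ (by omega)
    omega
  have : z = 1 ∨ z = 2 := by omega
  rcases this with h | h
  · left; rw [hz, h, mul_one]
  · right; rw [hz, h, mul_comm]

theorem ext_eq {n : ℕ} (s : ℕ × ℕ × ℕ → ℕ) {a b c : ℤ} {A B C : ℕ}
    (ha : a % ((n + 2 : ℕ) : ℤ) = A) (hb : b % ((n + 2 : ℕ) : ℤ) = B)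
    (hc : c % ((n + 2 : ℕ) : ℤ) = C) : ext n s a b c =
      if A + B + C = n + 2 then s (A, B, C) else s (n + 2 - A, n + 2 - B, n + 2 - C) := by
  unfold ext
  rw [ha, hb, hc]
  simp only [Int.toNat_natCast]

/-- Every admissible triple gives a cell. -/
theorem ext_cell {n : ℕ} (s : ℕ × ℕ × ℕ → ℕ) {a b c : ℤ} (h : Adm (n + 2) a b c) :
    ∃ (p : ℕ × ℕ × ℕ) (A B C : ℕ), IsCell n p ∧ ext n s a b c = s p ∧
      a % ((n + 2 : ℕ) : ℤ) = A ∧ b % ((n + 2 : ℕ) : ℤ) = B ∧ c % ((n + 2 : ℕ) : ℤ) = C ∧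
      0 < A ∧ A < n + 2 ∧ 0 < B ∧ B < n + 2 ∧ 0 < C ∧ C < n + 2 ∧
      ((p.1 = A ∧ p.2.1 = B ∧ p.2.2 = C) ∨
        (p.1 = n + 2 - A ∧ p.2.1 = n + 2 - B ∧ p.2.2 = n + 2 - C)) := by
  obtain ⟨A, B, C, a1, a2, b1, b2, c1, c2, hs, ha, hb, hc⟩ := ext_rep h
  rcases hs with hs | hs
  · refine ⟨(A, B, C), A, B, C, ⟨a1, b1, c1, hs⟩, ?_, ha, hb, hc, a1, a2, b1, b2, c1, c2,
      Or.inl ⟨rfl, rfl, rfl⟩⟩
    rw [ext_eq s ha hb hc, if_pos hs]
  · refine ⟨(n + 2 - A, n + 2 - B, n + 2 - C), A, B, C, ⟨?_, ?_, ?_, ?_⟩, ?_, ha, hb, hc, a1, a2,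
      b1, b2, c1, c2, Or.inr ⟨rfl, rfl, rfl⟩⟩
    · simp only; omega
    · simp only; omega
    · simp only; omega
    · simp only; omega
    · rw [ext_eq s ha hb hc, if_neg (by omega)]

theorem lt_to_good {n : ℕ} (hn : Odd n) (h : HasLatinTriangle n) : ∃ s, Good (n + 2) s := by
  obtain ⟨s, hlt, hline⟩ := h
  refine ⟨ext n s, ?_, ?_, ?_, ?_, ?_, ?_⟩
  · intro a b c a' b' c' ha hb hc
    have e : ∀ x y : ℤ, ((n + 2 : ℕ) : ℤ) ∣ x - y → x % ((n + 2 : ℕ) : ℤ) = y % ((n + 2 : ℕ) : ℤ) :=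
      fun x y h => Int.emod_eq_emod_iff_emod_sub_eq_zero.2 (Int.emod_eq_zero_of_dvd h)
    unfold ext
    rw [e _ _ ha, e _ _ hb, e _ _ hc]
  · intro a b c h
    obtain ⟨A, B, C, a1, a2, b1, b2, c1, c2, hs, ha, hb, hc⟩ := ext_rep h
    have key : ∀ (x : ℤ) (X : ℕ), 0 < X → X < n + 2 → x % ((n + 2 : ℕ) : ℤ) = X →
        (-x) % ((n + 2 : ℕ) : ℤ) = ((n + 2 - X : ℕ) : ℤ) := by
      intro x X h1 h2 h3
      have h4 : (-x) % ((n + 2 : ℕ) : ℤ) = ((n + 2 - X : ℕ) : ℤ) % ((n + 2 : ℕ) : ℤ) := by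
        apply Int.emod_eq_emod_iff_emod_sub_eq_zero.2
        apply Int.emod_eq_zero_of_dvd
        have h5 := Int.dvd_self_sub_emod (x := x) (m := ((n + 2 : ℕ) : ℤ))
        rw [h3] at h5
        have h6 := dvd_sub ((dvd_neg).2 h5) (dvd_refl ((n + 2 : ℕ) : ℤ))
        rwa [show -(x - (X : ℤ)) - ((n + 2 : ℕ) : ℤ) = -x - ((n + 2 - X : ℕ) : ℤ) by omega] at h6
      rw [h4, Int.emod_eq_of_lt (by omega) (by omega)]
    rw [ext_eq s ha hb hc, ext_eq s (key a A a1 a2 ha) (key b B b1 b2 hb) (key c C c1 c2 hc)]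
    rcases hs with hs | hs
    · rw [if_neg (by omega), if_pos hs]
      congr 1
      ext <;> simp only <;> omega
    · rw [if_pos (by omega), if_neg (by omega)]
  · intro a b c h
    obtain ⟨p, A, B, C, hp, he, _⟩ := ext_cell s h
    have := hlt p hp
    simp only [numSymbols, if_pos hn] at this
    rw [he]
    omega
  · intro a b c b' c' h h' he
    obtain ⟨p, A, B, C, hp, e1, ha, hb, hc, a1, a2, b1, b2, c1, c2, hpc⟩ := ext_cell s h
    obtain ⟨p', A', B', C', hp', e1', ha', hb', hc', a1', a2', b1', b2', c1', c2', hpc'⟩ :=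
      ext_cell s h'
    have hAA : A = A' := by rw [ha] at ha'; exact_mod_cast ha'
    subst hAA
    rw [e1, e1'] at he
    obtain ⟨m, hm⟩ := id hn
    have hcell := hp
    have hcell' := hp'
    obtain ⟨w1, w2, w3, w4⟩ := hp
    obtain ⟨v1, v2, v3, v4⟩ := hp'
    have hlin : ∃ i, 1 ≤ i ∧ i ≤ numLines n ∧ InLine n i p.1 ∧ InLine n i p'.1 := by
      simp only [numLines, InLine, if_pos hn]
      refine ⟨min A (n + 2 - A), ?_, ?_, ?_, ?_⟩
      · omega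
      · omega
      · omega
      · omega
    obtain ⟨i, i1, i2, i3, i4⟩ := hlin
    obtain ⟨q, hq, huniq⟩ := (hline i i1 i2 (s p) (hlt p hcell)).1
    have u1 := huniq p ⟨hcell, i3, rfl⟩
    have u2 := huniq p' ⟨hcell', i4, he.symm⟩
    have u : p = p' := u1.trans u2.symm
    subst u
    have hBB : B = B' := by omega
    have : b % ((n + 2 : ℕ) : ℤ) = b' % ((n + 2 : ℕ) : ℤ) := by rw [hb, hb', hBB]
    exact Int.dvd_of_emod_eq_zero (Int.emod_eq_emod_iff_emod_sub_eq_zero.1 this)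
  · intro a b c a' c' h h' he
    obtain ⟨p, A, B, C, hp, e1, ha, hb, hc, a1, a2, b1, b2, c1, c2, hpc⟩ := ext_cell s h
    obtain ⟨p', A', B', C', hp', e1', ha', hb', hc', a1', a2', b1', b2', c1', c2', hpc'⟩ :=
      ext_cell s h'
    have hBB : B = B' := by rw [hb] at hb'; exact_mod_cast hb'
    subst hBB
    rw [e1, e1'] at he
    obtain ⟨m, hm⟩ := id hn
    have hcell := hp
    have hcell' := hp'
    obtain ⟨w1, w2, w3, w4⟩ := hp
    obtain ⟨v1, v2, v3, v4⟩ := hp'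
    have hlin : ∃ i, 1 ≤ i ∧ i ≤ numLines n ∧ InLine n i p.2.1 ∧ InLine n i p'.2.1 := by
      simp only [numLines, InLine, if_pos hn]
      refine ⟨min B (n + 2 - B), ?_, ?_, ?_, ?_⟩
      · omega
      · omega
      · omega
      · omega
    obtain ⟨i, i1, i2, i3, i4⟩ := hlin
    obtain ⟨q, hq, huniq⟩ := (hline i i1 i2 (s p) (hlt p hcell)).2.1
    have u1 := huniq p ⟨hcell, i3, rfl⟩
    have u2 := huniq p' ⟨hcell', i4, he.symm⟩
    have u : p = p' := u1.trans u2.symm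
    subst u
    have hAA : A = A' := by omega
    have : a % ((n + 2 : ℕ) : ℤ) = a' % ((n + 2 : ℕ) : ℤ) := by rw [ha, ha', hAA]
    exact Int.dvd_of_emod_eq_zero (Int.emod_eq_emod_iff_emod_sub_eq_zero.1 this)
  · intro a b c a' b' h h' he
    obtain ⟨p, A, B, C, hp, e1, ha, hb, hc, a1, a2, b1, b2, c1, c2, hpc⟩ := ext_cell s h
    obtain ⟨p', A', B', C', hp', e1', ha', hb', hc', a1', a2', b1', b2', c1', c2', hpc'⟩ :=
      ext_cell s h'
    have hCC : C = C' := by rw [hc] at hc'; exact_mod_cast hc'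
    subst hCC
    rw [e1, e1'] at he
    obtain ⟨m, hm⟩ := id hn
    have hcell := hp
    have hcell' := hp'
    obtain ⟨w1, w2, w3, w4⟩ := hp
    obtain ⟨v1, v2, v3, v4⟩ := hp'
    have hlin : ∃ i, 1 ≤ i ∧ i ≤ numLines n ∧ InLine n i p.2.2 ∧ InLine n i p'.2.2 := by
      simp only [numLines, InLine, if_pos hn]
      refine ⟨min C (n + 2 - C), ?_, ?_, ?_, ?_⟩
      · omega
      · omega
      · omega
      · omega
    obtain ⟨i, i1, i2, i3, i4⟩ := hlin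
    obtain ⟨q, hq, huniq⟩ := (hline i i1 i2 (s p) (hlt p hcell)).2.2
    have u1 := huniq p ⟨hcell, i3, rfl⟩
    have u2 := huniq p' ⟨hcell', i4, he.symm⟩
    have u : p = p' := u1.trans u2.symm
    subst u
    have hAA : A = A' := by omega
    have : a % ((n + 2 : ℕ) : ℤ) = a' % ((n + 2 : ℕ) : ℤ) := by rw [ha, ha', hAA]
    exact Int.dvd_of_emod_eq_zero (Int.emod_eq_emod_iff_emod_sub_eq_zero.1 this)

end Pool.Agent.LT77
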