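import Mathlib
import Pool.Agent.LT77.Labels

set_option autoImplicit false

namespace Pool.Agent.LT77

def P0 (k d : ℕ) (y : ZMod k) : Prop :=
  (d ∣ y.val ∧ 0 < y.val ∧ 2 * y.val < k) ∨ (¬ d ∣ y.val ∧ 2 * (y.val % d) < d)

theorem P0_core {d : ℕ} {Y V : ℕ} (hd : Odd d) (hdk : d ∣ Y + V) (hY : ¬ d ∣ Y) :
    ¬ d ∣ V ∧ Y % d + V % d = d := by
  have hdpos : 0 < d := hd.pos
  have h1 : ¬ d ∣ V := fun h => hY ((Nat.dvd_add_left h).1 hdk)
  refine ⟨h1, ?_⟩
  have h2 : (Y + V) % d = 0 := Nat.mod_eq_zero_of_dvd hdk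
  rw [Nat.add_mod] at h2
  have h3 := Nat.mod_lt Y hdpos
  have h4 := Nat.mod_lt V hdpos
  have h5 : 0 < Y % d := Nat.pos_of_ne_zero fun h => hY (Nat.dvd_of_mod_eq_zero h)
  rcases lt_or_ge (Y % d + V % d) d with h | h
  · rw [Nat.mod_eq_of_lt h] at h2
    omega
  · rw [Nat.mod_eq_sub_mod h, Nat.mod_eq_of_lt (by omega)] at h2
    omega

theorem val_sum {k : ℕ} (hk : 0 < k) {d : ℕ} (hd : d < k) {x y : ZMod k}
    (h : x + y = ((d : ℕ) : ZMod k)) : x.val + y.val = d ∨ x.val + y.val = d + k := by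
  have : NeZero k := ⟨by omega⟩
  have hx := ZMod.val_lt x
  have hy := ZMod.val_lt y
  have h1 : ((x.val + y.val : ℕ) : ZMod k) = ((d : ℕ) : ZMod k) := by
    push_cast
    rw [ZMod.natCast_zmod_val, ZMod.natCast_zmod_val, h]
  rw [ZMod.natCast_eq_natCast_iff', Nat.mod_eq_of_lt hd] at h1
  rcases lt_or_ge (x.val + y.val) k with h2 | h2
  · rw [Nat.mod_eq_of_lt h2] at h1
    left; exact h1
  · rw [Nat.mod_eq_sub_mod h2, Nat.mod_eq_of_lt (by omega)] at h1
    right; omega

theorem P0_neg {k d : ℕ} (hk : Odd k) (hd : d ∣ k) (y : ZMod k) (hy : y ≠ 0) :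
    P0 k d y ↔ ¬ P0 k d (-y) := by
  have : NeZero k := ⟨by rintro rfl; simp at hk⟩
  have hdo : Odd d := Odd.of_dvd_nat hk hd
  have h1 := val_sum (d := 0) hk.pos hk.pos (x := y) (y := -y) (by simp)
  have hY : 0 < y.val := Nat.pos_of_ne_zero fun h => hy ((ZMod.val_eq_zero y).1 h)
  have hlt := ZMod.val_lt y
  have h2 : y.val + (-y).val = k := by omega
  obtain ⟨m, hm⟩ := hk
  unfold P0
  by_cases h : d ∣ y.val
  · have h' : d ∣ (-y).val := by
      rw [← h2] at hd
      exact (Nat.dvd_add_right h).1 hd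
    simp only [h, h', true_and, not_true, false_and, or_false]
    omega
  · have := P0_core hdo (by rw [h2]; exact hd) h
    simp only [h, this.1, false_and, false_or, not_false_iff, true_and]
    obtain ⟨r, hr⟩ := hdo
    omega

theorem P0_zero {k d : ℕ} : ¬ P0 k d 0 := by
  unfold P0
  simp

theorem P0_refl {k d : ℕ} (hk : Odd k) (hd : d ∣ k) (y : ZMod k)
    (hy : 2 * y ≠ ((d : ℕ) : ZMod k)) : P0 k d y ↔ ¬ P0 k d (((d : ℕ) : ZMod k) - y) := by
  have : NeZero k := ⟨by rintro rfl; simp at hk⟩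
  rcases (Nat.le_of_dvd hk.pos hd).eq_or_lt with he | hlt
  · have h0 : ((d : ℕ) : ZMod k) = 0 := by rw [he]; simp
    rw [h0] at hy ⊢
    rw [zero_sub]
    exact P0_neg hk hd y (by rintro rfl; simp at hy)
  have hdo : Odd d := Odd.of_dvd_nat hk hd
  have h1 := val_sum (d := d) hk.pos hlt (x := y) (y := ((d : ℕ) : ZMod k) - y) (by ring)
  have hV := ZMod.val_lt (((d : ℕ) : ZMod k) - y)
  have hYk := ZMod.val_lt y
  have hyy : 2 * y.val ≠ d + k := by
    intro h
    apply hy
    have := congrArg (Nat.cast : ℕ → ZMod k) h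
    push_cast at this
    rwa [ZMod.natCast_zmod_val, ZMod.natCast_self, add_zero] at this
  unfold P0
  set Y := y.val with hYdef
  set V := (((d : ℕ) : ZMod k) - y).val with hVdef
  have hsum : d ∣ Y + V := by
    rcases h1 with h1 | h1
    · rw [h1]
    · rw [h1]; exact dvd_add dvd_rfl hd
  by_cases h : d ∣ Y
  · have h' : d ∣ V := (Nat.dvd_add_right h).1 hsum
    simp only [h, h', true_and, not_true, false_and, or_false]
    obtain ⟨q, hq⟩ := hd
    obtain ⟨z, hz⟩ := h
    obtain ⟨w, hw⟩ := h'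
    have hqo : Odd q := Odd.of_dvd_nat hk ⟨d, by rw [hq, mul_comm]⟩
    have hdpos := hdo.pos
    have hq1 : 1 < q := by
      rw [hq] at hlt
      by_contra hc
      have : q ≤ 1 := by omega
      have := Nat.mul_le_mul_left d this
      omega
    obtain ⟨r, hr⟩ := hqo
    have hzw : z + w = 1 ∨ z + w = 1 + q := by
      rcases h1 with h1 | h1
      · left
        rw [hz, hw, ← mul_add] at h1
        exact Nat.eq_of_mul_eq_mul_left hdpos (by rw [h1, mul_one])
      · right
        rw [hz, hw, hq, ← mul_add] at h1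
        exact Nat.eq_of_mul_eq_mul_left hdpos (by rw [h1, mul_add, mul_one])
    have hzz : 2 * z ≠ 1 + q := by
      intro h
      apply hyy
      rw [hz, hq]
      calc 2 * (d * z) = d * (2 * z) := by ring
        _ = d + d * q := by rw [h]; ring
    have c1 : 0 < Y ↔ 0 < z := by
      rw [hz]
      constructor
      · intro h; exact Nat.pos_of_mul_pos_left h |> fun _ => by
          rcases Nat.eq_zero_or_pos z with h0 | h0
          · subst h0; simp at h
          · exact h0
      · intro h; exact Nat.mul_pos hdpos h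
    have c2 : 0 < V ↔ 0 < w := by
      rw [hw]
      constructor
      · intro h
        rcases Nat.eq_zero_or_pos w with h0 | h0
        · subst h0; simp at h
        · exact h0
      · intro h; exact Nat.mul_pos hdpos h
    have c3 : 2 * Y < k ↔ 2 * z < q := by
      rw [hz, hq, show 2 * (d * z) = d * (2 * z) by ring]
      exact Nat.mul_lt_mul_left hdpos
    have c4 : 2 * V < k ↔ 2 * w < q := by
      rw [hw, hq, show 2 * (d * w) = d * (2 * w) by ring]
      exact Nat.mul_lt_mul_left hdpos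
    have c5 : z < q := by
      rw [hz, hq] at hYk
      exact lt_of_mul_lt_mul_left hYk (Nat.zero_le d)
    have c6 : w < q := by
      rw [hw, hq] at hV
      exact lt_of_mul_lt_mul_left hV (Nat.zero_le d)
    rw [c1, c2, c3, c4]
    omega
  · have := P0_core hdo hsum h
    simp only [h, this.1, false_and, false_or, not_false_iff, true_and]
    obtain ⟨r, hr⟩ := hdo
    omega

theorem P0_fix {k d : ℕ} (hk : Odd k) (hd : d ∣ k) (y : ZMod k)
    (hy : 2 * y = ((d : ℕ) : ZMod k)) : ¬ P0 k d y := by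
  have : NeZero k := ⟨by rintro rfl; simp at hk⟩
  have hdo : Odd d := Odd.of_dvd_nat hk hd
  rcases (Nat.le_of_dvd hk.pos hd).eq_or_lt with he | hlt
  · have h0 : ((d : ℕ) : ZMod k) = 0 := by rw [he]; simp
    rw [h0] at hy
    have hy0 : y = 0 := by
      by_contra hne
      have h1 := val_sum (d := 0) hk.pos hk.pos (x := y) (y := y) (by
        rw [← two_mul, hy]; simp)
      have hY : 0 < y.val := Nat.pos_of_ne_zero fun h => hne ((ZMod.val_eq_zero y).1 h)
      obtain ⟨m, hm⟩ := hk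
      omega
    rw [hy0]
    exact P0_zero
  have h1 := val_sum (d := d) hk.pos hlt (x := y) (y := y) (by rw [← two_mul, hy])
  obtain ⟨r, hr⟩ := id hdo
  obtain ⟨m, hm⟩ := id hk
  have h2 : 2 * y.val = d + k := by omega
  have h3 : d ∣ y.val := by
    have : d ∣ 2 * y.val := by rw [h2]; exact dvd_add dvd_rfl hd
    exact (Nat.Coprime.dvd_mul_left (by rw [Nat.coprime_two_right]; exact hdo)).1 this
  unfold P0
  simp only [h3, true_and, not_true, false_and, or_false]
  omega

theorem exists_sign {k : ℕ} (hk : Odd k) : ∃ P : ZMod k → ZMod k → Prop, Sign k P := by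
  have hne : NeZero k := ⟨by rintro rfl; simp at hk⟩
  have key : ∀ e : ZMod k, ∃ Q : ZMod k → Prop, (∀ x, x ≠ 0 → (Q x ↔ ¬ Q (-x))) ∧ ¬ Q 0 ∧
      (∀ x, 2 * x ≠ e → (Q x ↔ ¬ Q (e - x))) ∧ (∀ x, 2 * x = e → ¬ Q x) := by
    intro e
    obtain ⟨d, hd, u, hu, rfl⟩ := ZMod.eq_unit_mul_divisor e
    obtain ⟨u, rfl⟩ := hu
    refine ⟨fun x => P0 k d ((u⁻¹ : (ZMod k)ˣ) * x), ?_, ?_, ?_, ?_⟩
    · intro x hx
      simp only [mul_neg]
      refine P0_neg hk hd _ ?_
      intro h
      apply hx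
      have := congrArg (fun t => (u : ZMod k) * t) h
      simpa using this
    · simp only [mul_zero]
      exact P0_zero
    · intro x hx
      have e1 : ((u⁻¹ : (ZMod k)ˣ) : ZMod k) * (u * (d : ZMod k) - x) =
          (d : ZMod k) - ((u⁻¹ : (ZMod k)ˣ) : ZMod k) * x := by
        rw [mul_sub, Units.inv_mul_cancel_left]
      simp only
      rw [e1]
      refine P0_refl hk hd _ ?_
      intro h
      apply hx
      rw [← h]
      rw [mul_left_comm (2 : ZMod k), Units.mul_inv_cancel_left]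
    · intro x hx
      refine P0_fix hk hd _ ?_
      rw [mul_left_comm, hx, Units.inv_mul_cancel_left]
  choose Q h1 h2 h3 h4 using key
  exact ⟨Q, ⟨h1, h2, h3, h4⟩⟩

end Pool.Agent.LT77
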