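import Mathlib
import Pool.Agent.LT77.Cells

set_option autoImplicit false

namespace Pool.Agent.LT77

variable {k : ℕ}

theorem TT1 (h2 : ZMod k) (hh : 2 * h2 = 1) (h3 : 3 ∣ k) {α β β' : ZMod k}
    (h : labT h3 α β = labT h3 α β') : β = β' := by
  rcases TT h3 h with h1 | h1
  · linear_combination (-1) * h1
  · exact half_cancel h2 hh (by linear_combination h1)

theorem TT2 (h3 : 3 ∣ k) {α α' β : ZMod k}
    (h : labT h3 α β = labT h3 α' β) : α = α' := by
  rcases TT h3 h with h1 | h1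
  · linear_combination h1
  · linear_combination h1

theorem TT3 (h2 : ZMod k) (hh : 2 * h2 = 1) (h3 : 3 ∣ k) {α β α' β' : ZMod k}
    (h : labT h3 α β = labT h3 α' β') (hs : α + β = α' + β') : α = α' := by
  rcases TT h3 h with h1 | h1
  · exact half_cancel h2 hh (by linear_combination h1 + hs)
  · linear_combination 2 * hs - h1

theorem cast_succ_inj {m n : ℕ} (hm : m + 2 < k) (hn : n + 2 < k)
    (h : ((m + 1 : ℕ) : ZMod k) = ((n + 1 : ℕ) : ZMod k)) : m = n := by
  rw [ZMod.natCast_eq_natCast_iff', Nat.mod_eq_of_lt (by omega), Nat.mod_eq_of_lt (by omega)] at h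
  omega

section

variable (h3 : 3 ∣ k) (h2 : ZMod k) (hh : 2 * h2 = 1) {P : ZMod k → ZMod k → Prop}
  (hP : Sign k P) {s : ℤ → ℤ → ℤ → ℕ} (hs : Good k s)

include hh hP hs in
theorem L_i1 {a b c b' c' : ℤ} (h : Adm (3 * k) a b c) (h' : Adm (3 * k) a b' c')
    (he : L h3 h2 P s a b c = L h3 h2 P s a b' c') : ((3 * k : ℕ) : ℤ) ∣ b - b' := by
  have hcb : ((3 * k : ℕ) : ℤ) ∣ c - c' → ((3 * k : ℕ) : ℤ) ∣ b - b' := by
    intro hc
    have := dvd_sub (dvd_sub h.2.2.2 h'.2.2.2) hc
    have e : a + b + c - (a + b' + c') - (c - c') = b - b' := by ring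
    rwa [e] at this
  rcases cls h3 h2 P s h with ⟨x1, x2, x3, x4, x5⟩ | ⟨x1, x2, x3, x4⟩ | ⟨x1, x2, x3, x4⟩ |
    ⟨x1, x2, x3, x4⟩ | ⟨x1, x2, x3⟩ <;>
  rcases cls h3 h2 P s h' with ⟨y1, y2, y3, y4, y5⟩ | ⟨y1, y2, y3, y4⟩ | ⟨y1, y2, y3, y4⟩ |
    ⟨y1, y2, y3, y4⟩ | ⟨y1, y2, y3⟩
  · rw [x5, y5] at he
    have := cast_succ_inj (hs.lt _ _ _ x4) (hs.lt _ _ _ y4) (Prod.mk.inj he).2
    exact (dvd3 (by omega)).2 (hs.i1 _ _ _ _ _ x4 y4 this)
  · rw [x5, y3] at he; exact absurd he.symm (labS_ne _ _ _ _)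
  · exfalso; omega
  · exfalso; omega
  · exfalso; omega
  · rw [x3, y5] at he; exact absurd he (labS_ne _ _ _ _)
  · rw [x3, y3] at he
    have hf := A_f h2 hh he
    rcases x4 with ⟨u1, u2, u3⟩ | ⟨u1, u2, u3⟩ <;> rcases y4 with ⟨v1, v2, v3⟩ | ⟨v1, v2, v3⟩
    · refine tt_inj (by omega) (half_cancel h2 hh ?_)
      linear_combination hf + u3 - v3
    · exfalso
      have e1 : tt k b' = tt k c := half_cancel h2 hh (by linear_combination (-1) * hf + u3 - v3)
      have e2 : tt k c' = tt k b := half_cancel h2 hh (by linear_combination (-1) * hf - u3 + v3)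
      rw [e1, e2] at he
      exact A_swap h2 hh hP x2 he
    · exfalso
      have e1 : tt k b' = tt k c := half_cancel h2 hh (by linear_combination (-1) * hf - u3 + v3)
      have e2 : tt k c' = tt k b := half_cancel h2 hh (by linear_combination (-1) * hf + u3 - v3)
      rw [e1, e2] at he
      exact A_swap h2 hh hP x2 he
    · refine tt_inj (by omega) (half_cancel h2 hh ?_)
      linear_combination hf - u3 + v3
  · exfalso; omega
  · exfalso; omega
  · exfalso; omega
  · exfalso; omega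
  · exfalso; omega
  · rw [x3, y3] at he
    have hf := B_f h2 hh he
    exact hcb (tt_inj (by omega) (by linear_combination hf))
  · exfalso; rw [x3, y3] at he; exact BC h2 hh hP x2 he
  · exfalso; rw [x3, y2] at he; exact TB h2 hh hP h3 x2 he.symm
  · exfalso; omega
  · exfalso; omega
  · exfalso; rw [x3, y3] at he; exact BC h2 hh hP y2 he.symm
  · rw [x3, y3] at he
    have hf := C_f h2 hh he
    exact tt_inj (by omega) (by linear_combination hf)
  · exfalso; rw [x3, y2] at he; exact TC h2 hh hP h3 x2 he.symm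
  · exfalso; omega
  · exfalso; omega
  · exfalso; rw [x2, y3] at he; exact TB h2 hh hP h3 y2 he
  · exfalso; rw [x2, y3] at he; exact TC h2 hh hP h3 y2 he
  · rw [x2, y2] at he
    exact tt_inj (by omega) (TT1 h2 hh h3 he)

include hh hP hs in
theorem L_i2 {a b c a' c' : ℤ} (h : Adm (3 * k) a b c) (h' : Adm (3 * k) a' b c')
    (he : L h3 h2 P s a b c = L h3 h2 P s a' b c') : ((3 * k : ℕ) : ℤ) ∣ a - a' := by
  have hcb : ((3 * k : ℕ) : ℤ) ∣ c - c' → ((3 * k : ℕ) : ℤ) ∣ a - a' := by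
    intro hc
    have := dvd_sub (dvd_sub h.2.2.2 h'.2.2.2) hc
    have e : a + b + c - (a' + b + c') - (c - c') = a - a' := by ring
    rwa [e] at this
  rcases cls h3 h2 P s h with ⟨x1, x2, x3, x4, x5⟩ | ⟨x1, x2, x3, x4⟩ | ⟨x1, x2, x3, x4⟩ |
    ⟨x1, x2, x3, x4⟩ | ⟨x1, x2, x3⟩ <;>
  rcases cls h3 h2 P s h' with ⟨y1, y2, y3, y4, y5⟩ | ⟨y1, y2, y3, y4⟩ | ⟨y1, y2, y3, y4⟩ |
    ⟨y1, y2, y3, y4⟩ | ⟨y1, y2, y3⟩
  · rw [x5, y5] at he
    have := cast_succ_inj (hs.lt _ _ _ x4) (hs.lt _ _ _ y4) (Prod.mk.inj he).2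
    exact (dvd3 (by omega)).2 (hs.i2 _ _ _ _ _ x4 y4 this)
  · exfalso; omega
  · rw [x5, y3] at he; exact absurd he.symm (labS_ne _ _ _ _)
  · exfalso; omega
  · exfalso; omega
  · exfalso; omega
  · rw [x3, y3] at he
    have hf := A_f h2 hh he
    exact hcb (tt_inj (by omega) (by linear_combination hf))
  · exfalso; omega
  · exfalso; rw [x3, y3] at he; exact AC h2 hh hP x2 he
  · exfalso; rw [x3, y2] at he; exact TA h2 hh h3 x2 he.symm
  · rw [x3, y5] at he; exact absurd he (labS_ne _ _ _ _)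
  · exfalso; omega
  · rw [x3, y3] at he
    have hf := B_f h2 hh he
    rcases x4 with ⟨u1, u2, u3⟩ | ⟨u1, u2, u3⟩ <;> rcases y4 with ⟨v1, v2, v3⟩ | ⟨v1, v2, v3⟩
    · refine tt_inj (by omega) (half_cancel h2 hh ?_)
      linear_combination hf + u3 - v3
    · exfalso
      have e1 : tt k a' = tt k c := half_cancel h2 hh (by linear_combination (-1) * hf + u3 - v3)
      have e2 : tt k c' = tt k a := half_cancel h2 hh (by linear_combination (-1) * hf - u3 + v3)
      rw [e1, e2] at he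
      exact B_swap h2 hh hP x2 he
    · exfalso
      have e1 : tt k a' = tt k c := half_cancel h2 hh (by linear_combination (-1) * hf - u3 + v3)
      have e2 : tt k c' = tt k a := half_cancel h2 hh (by linear_combination (-1) * hf + u3 - v3)
      rw [e1, e2] at he
      exact B_swap h2 hh hP x2 he
    · refine tt_inj (by omega) (half_cancel h2 hh ?_)
      linear_combination hf - u3 + v3
  · exfalso; omega
  · exfalso; omega
  · exfalso; omega
  · exfalso; rw [x3, y3] at he; exact AC h2 hh hP y2 he.symm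
  · exfalso; omega
  · rw [x3, y3] at he
    have hf := C_f h2 hh he
    exact tt_inj (by omega) (by linear_combination hf)
  · exfalso; rw [x3, y2] at he; exact TC' h2 hh h3 x2 he.symm
  · exfalso; omega
  · exfalso; rw [x2, y3] at he; exact TA h2 hh h3 y2 he
  · exfalso; omega
  · exfalso; rw [x2, y3] at he; exact TC' h2 hh h3 y2 he
  · rw [x2, y2] at he
    exact tt_inj (by omega) (TT2 h3 he)

include hh hP hs in
theorem L_i3 {a b c a' b' : ℤ} (h : Adm (3 * k) a b c) (h' : Adm (3 * k) a' b' c)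
    (he : L h3 h2 P s a b c = L h3 h2 P s a' b' c) : ((3 * k : ℕ) : ℤ) ∣ a - a' := by
  have hcb : ((3 * k : ℕ) : ℤ) ∣ b - b' → ((3 * k : ℕ) : ℤ) ∣ a - a' := by
    intro hc
    have := dvd_sub (dvd_sub h.2.2.2 h'.2.2.2) hc
    have e : a + b + c - (a' + b' + c) - (b - b') = a - a' := by ring
    rwa [e] at this
  rcases cls h3 h2 P s h with ⟨x1, x2, x3, x4, x5⟩ | ⟨x1, x2, x3, x4⟩ | ⟨x1, x2, x3, x4⟩ |
    ⟨x1, x2, x3, x4⟩ | ⟨x1, x2, x3⟩ <;>
  rcases cls h3 h2 P s h' with ⟨y1, y2, y3, y4, y5⟩ | ⟨y1, y2, y3, y4⟩ | ⟨y1, y2, y3, y4⟩ |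
    ⟨y1, y2, y3, y4⟩ | ⟨y1, y2, y3⟩
  · rw [x5, y5] at he
    have := cast_succ_inj (hs.lt _ _ _ x4) (hs.lt _ _ _ y4) (Prod.mk.inj he).2
    exact (dvd3 (by omega)).2 (hs.i3 _ _ _ _ _ x4 y4 this)
  · exfalso; omega
  · exfalso; omega
  · rw [x5, y3] at he; exact absurd he.symm (labS_ne _ _ _ _)
  · exfalso; omega
  · exfalso; omega
  · rw [x3, y3] at he
    have hf := A_f h2 hh he
    exact hcb (tt_inj (by omega) (by linear_combination hf))
  · exfalso; rw [x3, y3] at he; exact AB h2 hh hP x2 he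
  · exfalso; omega
  · exfalso; rw [x3, y2] at he; exact TA' h2 hh hP h3 y1 x2 he.symm
  · exfalso; omega
  · exfalso; rw [x3, y3] at he; exact AB h2 hh hP y2 he.symm
  · rw [x3, y3] at he
    have hf := B_f h2 hh he
    exact tt_inj (by omega) (by linear_combination hf)
  · exfalso; omega
  · exfalso; rw [x3, y2] at he; exact TB' h2 hh hP h3 y1 x2 he.symm
  · rw [x3, y5] at he; exact absurd he (labS_ne _ _ _ _)
  · exfalso; omega
  · exfalso; omega
  · rw [x3, y3] at he
    have hf := C_f h2 hh he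
    rcases x4 with ⟨u1, u2, u3⟩ | ⟨u1, u2, u3⟩ <;> rcases y4 with ⟨v1, v2, v3⟩ | ⟨v1, v2, v3⟩
    · refine tt_inj (by omega) (half_cancel h2 hh ?_)
      linear_combination hf + u3 - v3
    · exfalso
      have e1 : tt k a' = tt k b := half_cancel h2 hh (by linear_combination (-1) * hf + u3 - v3)
      have e2 : tt k b' = tt k a := half_cancel h2 hh (by linear_combination (-1) * hf - u3 + v3)
      rw [e1, e2] at he
      exact C_swap h2 hh hP x2 he
    · exfalso
      have e1 : tt k a' = tt k b := half_cancel h2 hh (by linear_combination (-1) * hf - u3 + v3)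
      have e2 : tt k b' = tt k a := half_cancel h2 hh (by linear_combination (-1) * hf + u3 - v3)
      rw [e1, e2] at he
      exact C_swap h2 hh hP x2 he
    · refine tt_inj (by omega) (half_cancel h2 hh ?_)
      linear_combination hf - u3 + v3
  · exfalso; omega
  · exfalso; omega
  · exfalso; rw [x2, y3] at he; exact TA' h2 hh hP h3 x1 y2 he
  · exfalso; rw [x2, y3] at he; exact TB' h2 hh hP h3 x1 y2 he
  · exfalso; omega
  · rw [x2, y2] at he
    exact tt_inj (by omega) (TT3 h2 hh h3 he (by linear_combination x1 - y1))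

/-- The possible labels. -/
def InR (p : ℕ × ZMod k) : Prop := (p.1 = 0 ∧ p.2 ≠ 0 ∧ p.2 ≠ -1) ∨ p.1 = 1 ∨ p.1 = 2

def enc (p : ℕ × ZMod k) : ℕ :=
  if p.1 = 0 then p.2.val - 1 else if p.1 = 1 then (k - 2) + p.2.val else (2 * k - 2) + p.2.val

theorem val_facts (hk : 3 ≤ k) {x : ZMod k} (h0 : x ≠ 0) (h1 : x ≠ -1) :
    1 ≤ x.val ∧ x.val + 2 ≤ k := by
  have : NeZero k := ⟨by omega⟩
  have hv := ZMod.val_lt x
  have hx : ((x.val : ℕ) : ZMod k) = x := ZMod.natCast_zmod_val x
  constructor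
  · rcases Nat.eq_zero_or_pos x.val with h | h
    · exfalso; apply h0; rw [← hx, h]; simp
    · exact h
  · by_contra hc
    have h : x.val = k - 1 := by omega
    apply h1
    rw [← hx, h, Nat.cast_sub (by omega)]
    simp

theorem enc_lt (hk : 3 ≤ k) {p : ℕ × ZMod k} (h : InR p) : enc p + 2 < 3 * k := by
  have : NeZero k := ⟨by omega⟩
  obtain ⟨i, x⟩ := p
  have hv := ZMod.val_lt x
  rcases h with ⟨h, h0, h1⟩ | h | h
  · have := val_facts hk h0 h1
    simp only at h this
    simp only [enc, h, if_true]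
    omega
  · simp only at h
    subst h
    simp only [enc]
    norm_num
    omega
  · simp only at h
    subst h
    simp only [enc]
    norm_num
    omega

theorem enc_inj (hk : 3 ≤ k) {p q : ℕ × ZMod k} (h : InR p) (h' : InR q) (he : enc p = enc q) :
    p = q := by
  have : NeZero k := ⟨by omega⟩
  obtain ⟨i, x⟩ := p
  obtain ⟨j, y⟩ := q
  have hv := ZMod.val_lt x
  have hw := ZMod.val_lt y
  rcases h with ⟨h, h0, h1⟩ | h | h <;> rcases h' with ⟨h', h0', h1'⟩ | h' | h' <;>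
  simp only at h h' <;> subst h <;> subst h' <;> simp [enc] at he
  · have := val_facts hk h0 h1
    have := val_facts hk h0' h1'
    simp only at *
    rw [ZMod.val_injective k (show x.val = y.val by omega)]
  · have := val_facts hk h0 h1
    simp only at *
    omega
  · have := val_facts hk h0 h1
    simp only at *
    omega
  · have := val_facts hk h0' h1'
    simp only at *
    omega
  · rw [ZMod.val_injective k (show x.val = y.val by omega)]
  · omega
  · have := val_facts hk h0' h1'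
    simp only at *
    omega
  · omega
  · rw [ZMod.val_injective k (show x.val = y.val by omega)]

theorem labS_inR (P : ZMod k → ZMod k → Prop) (f x : ZMod k) : InR (labS P f x) := by
  right; exact labS_fst P f x

include hs in
theorem L_inR {a b c : ℤ} (h : Adm (3 * k) a b c) : InR (L h3 h2 P s a b c) := by
  rcases cls h3 h2 P s h with ⟨x1, x2, x3, x4, x5⟩ | ⟨x1, x2, x3, x4⟩ | ⟨x1, x2, x3, x4⟩ |
    ⟨x1, x2, x3, x4⟩ | ⟨x1, x2, x3⟩
  · rw [x5]
    have hl := hs.lt _ _ _ x4
    left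
    refine ⟨rfl, ?_, ?_⟩
    · intro h0
      simp only at h0
      rw [ZMod.natCast_eq_zero_iff] at h0
      have := Nat.le_of_dvd (by omega) h0
      omega
    · intro h0
      simp only at h0
      have h1 : ((s (a / 3) (b / 3) (c / 3) + 2 : ℕ) : ZMod k) = 0 := by
        push_cast at h0 ⊢
        linear_combination h0
      rw [ZMod.natCast_eq_zero_iff] at h1
      have := Nat.le_of_dvd (by omega) h1
      omega
  · rw [x3]; exact labS_inR _ _ _
  · rw [x3]; exact labS_inR _ _ _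
  · rw [x3]; exact labS_inR _ _ _
  · rw [x2]
    rcases labT_cases h3 (tt k a) (tt k b) with ⟨h1, h1'⟩ | ⟨h1, h1'⟩ | ⟨h1, h1a, h1'⟩ <;> rw [h1']
    · right; right; rfl
    · right; left; rfl
    · left; exact ⟨rfl, h1, h1a⟩

include hs in
theorem L_per {a b c a' b' c' : ℤ} (ha : ((3 * k : ℕ) : ℤ) ∣ a - a')
    (hb : ((3 * k : ℕ) : ℤ) ∣ b - b') (hc : ((3 * k : ℕ) : ℤ) ∣ c - c')  :
    L h3 h2 P s a b c = L h3 h2 P s a' b' c' := by
  obtain ⟨a1, a2, a3⟩ := tt_congr ha
  obtain ⟨b1, b2, b3⟩ := tt_congr hb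
  obtain ⟨c1, c2, c3⟩ := tt_congr hc
  simp only [L]
  rw [a1, b1, c1, a2, b2, c2]
  rw [hs.per _ _ _ _ _ _ a3 b3 c3]

include hs in
theorem L_neg {a b c : ℤ} (h : Adm (3 * k) a b c) :
    L h3 h2 P s (-a) (-b) (-c) = L h3 h2 P s a b c := by
  have hc : c % 3 = 0 ∨ c % 3 ≠ 0 := by omega
  rcases cls h3 h2 P s h with ⟨x1, x2, x3, x4, x5⟩ | ⟨x1, x2, x3, x4⟩ | ⟨x1, x2, x3, x4⟩ |
    ⟨x1, x2, x3, x4⟩ | ⟨x1, x2, x3⟩
  · rw [x5]
    simp only [L]
    rw [if_pos (by omega), if_pos (by omega)]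
    have e1 : (-a) / 3 = -(a / 3) := by omega
    have e2 : (-b) / 3 = -(b / 3) := by omega
    have e3 : (-c) / 3 = -(c / 3) := by omega
    rw [e1, e2, e3, hs.neg _ _ _ x4]
  · rw [x3]
    simp only [L]
    rw [if_pos (by omega), if_neg (by omega), tt_neg (by omega), tt_neg (by omega)]
  · rw [x3]
    simp only [L]
    rw [if_neg (by omega), if_pos (by omega), tt_neg (by omega), tt_neg (by omega)]
  · rw [x3]
    simp only [L]
    rw [if_neg (by omega), if_neg (by omega), if_pos (by omega), tt_neg (by omega),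
      tt_neg (by omega)]
  · rw [x2]
    simp only [L]
    rw [if_neg (by omega), if_neg (by omega), if_neg (by omega), tt_neg (by omega),
      tt_neg (by omega)]

include hh hP hs in
theorem triple (hk : 3 ≤ k) : Good (3 * k) (fun a b c => enc (L h3 h2 P s a b c)) where
  per := by
    intro a b c a' b' c' ha hb hc
    exact congrArg enc (L_per h3 h2 hs ha hb hc)
  neg := by
    intro a b c h
    exact congrArg enc (L_neg h3 h2 hs h)
  lt := by
    intro a b c h
    exact enc_lt hk (L_inR h3 h2 hs h)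
  i1 := by
    intro a b c b' c' h h' he
    exact L_i1 h3 h2 hh hP hs h h' (enc_inj hk (L_inR h3 h2 hs h) (L_inR h3 h2 hs h') he)
  i2 := by
    intro a b c b' c' h h' he
    exact L_i2 h3 h2 hh hP hs h h' (enc_inj hk (L_inR h3 h2 hs h) (L_inR h3 h2 hs h') he)
  i3 := by
    intro a b c b' c' h h' he
    exact L_i3 h3 h2 hh hP hs h h' (enc_inj hk (L_inR h3 h2 hs h) (L_inR h3 h2 hs h') he)

end

end Pool.Agent.LT77
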