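import Mathlib
import Pool.Agent.LT77.Forth
import Pool.Agent.LT77.Triple
import Pool.Agent.LT77.Signs

set_option autoImplicit false

namespace Pool.Agent.LT77

theorem good_triple {k : ℕ} (hk : Odd k) (h3 : 3 ∣ k) (h : ∃ s, Good k s) :
    ∃ s, Good (3 * k) s := by
  obtain ⟨s, hs⟩ := h
  obtain ⟨P, hP⟩ := exists_sign hk
  obtain ⟨m, hm⟩ := hk
  have hh : 2 * ((m + 1 : ℕ) : ZMod k) = 1 := by
    have : ((2 * (m + 1) : ℕ) : ZMod k) = ((k + 1 : ℕ) : ZMod k) := by rw [hm]; ring_nf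
    push_cast at this ⊢
    rw [this, ZMod.natCast_self, zero_add]
  exact ⟨_, triple h3 ((m + 1 : ℕ) : ZMod k) hh hP hs (Nat.le_of_dvd (by omega) h3)⟩

theorem tripling {n : ℕ} (hn : n % 6 = 1) (h : HasLatinTriangle n) : HasLatinTriangle (3 * n + 4) := by
  have ho : Odd n := Nat.odd_iff.2 (by omega)
  obtain ⟨s, hs⟩ := good_triple (k := n + 2) (Nat.odd_iff.2 (by omega)) (by omega)
    (lt_to_good ho h)
  have e : 3 * (n + 2) = (3 * n + 4) + 2 := by ring
  rw [e] at hs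
  exact good_to_lt (Nat.odd_iff.2 (by omega)) hs

theorem lt_one : HasLatinTriangle 1 := by
  have ho : Odd 1 := odd_one
  refine ⟨fun _ => 0, ?_, ?_⟩
  · intro p _
    simp only [numSymbols, if_pos ho]
    norm_num
  · intro i h1 h2 v hv
    simp only [numSymbols, if_pos ho] at hv
    simp only [numLines, if_pos ho] at h2
    simp only [InLine, if_pos ho]
    have hv0 : v = 0 := by omega
    have hi : i = 1 := by omega
    subst hv0
    subst hi
    have hu : ∀ p : ℕ × ℕ × ℕ, IsCell 1 p → p = (1, 1, 1) := by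
      rintro ⟨a, b, c⟩ ⟨q1, q2, q3, q4⟩
      simp only at q1 q2 q3 q4
      ext <;> simp only <;> omega
    have hc : IsCell 1 (1, 1, 1) := ⟨le_rfl, le_rfl, le_rfl, rfl⟩
    exact ⟨⟨(1, 1, 1), ⟨hc, Or.inl rfl, rfl⟩, fun p hp => hu p hp.1⟩,
      ⟨(1, 1, 1), ⟨hc, Or.inl rfl, rfl⟩, fun p hp => hu p hp.1⟩,
      ⟨(1, 1, 1), ⟨hc, Or.inl rfl, rfl⟩, fun p hp => hu p hp.1⟩⟩

theorem family {q : ℕ} (hq : Odd q) (h : HasLatinTriangle (3 * q - 2)) (m : ℕ) : HasLatinTriangle (3 ^ (m + 1) * q - 2) := by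
  induction m with
  | zero => simpa using h
  | succ m ih =>
    have h1 := Nat.odd_iff.1 ((Odd.pow (n := m) (show Odd 3 by decide)).mul hq)
    have e0 : 3 ^ (m + 1) * q = 3 * (3 ^ m * q) := by ring
    have e1 : 3 ^ (m + 1 + 1) * q = 9 * (3 ^ m * q) := by ring
    rw [e0] at ih
    rw [e1]
    have := tripling (n := 3 * (3 ^ m * q) - 2) (by omega) ih
    rwa [show 3 * (3 * (3 ^ m * q) - 2) + 4 = 9 * (3 ^ m * q) - 2 by omega] at this

end Pool.Agent.LT77
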