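import Mathlib
import Pool.Agent.LT77.Family

set_option autoImplicit false

namespace Pool.Agent.LT77

/-- A filling without repetitions on the lines gives a good function. -/
theorem uniq_to_good {n : ℕ} (hn : Odd n) (s : ℕ × ℕ × ℕ → ℕ) (hlt : ∀ p, IsCell n p → s p < n)
    (un1 : ∀ i, 1 ≤ i → 2 * i ≤ n + 1 → ∀ p p', IsCell n p → IsCell n p' →
      (p.1 = i ∨ (2 ≤ i ∧ p.1 = n + 2 - i)) → (p'.1 = i ∨ (2 ≤ i ∧ p'.1 = n + 2 - i)) →
      s p = s p' → p = p')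
    (un2 : ∀ i, 1 ≤ i → 2 * i ≤ n + 1 → ∀ p p', IsCell n p → IsCell n p' →
      (p.2.1 = i ∨ (2 ≤ i ∧ p.2.1 = n + 2 - i)) → (p'.2.1 = i ∨ (2 ≤ i ∧ p'.2.1 = n + 2 - i)) →
      s p = s p' → p = p')
    (un3 : ∀ i, 1 ≤ i → 2 * i ≤ n + 1 → ∀ p p', IsCell n p → IsCell n p' →
      (p.2.2 = i ∨ (2 ≤ i ∧ p.2.2 = n + 2 - i)) → (p'.2.2 = i ∨ (2 ≤ i ∧ p'.2.2 = n + 2 - i)) →
      s p = s p' → p = p') : ∃ s, Good (n + 2) s := by
  refine ⟨ext n s, ?_, ?_, ?_, ?_, ?_, ?_⟩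
  · intro a b c a' b' c' ha hb hc
    have e : ∀ x y : ℤ, ((n + 2 : ℕ) : ℤ) ∣ x - y → x % ((n + 2 : ℕ) : ℤ) = y % ((n + 2 : ℕ) : ℤ) :=
      fun x y h => Int.emod_eq_emod_iff_emod_sub_eq_zero.2 (Int.emod_eq_zero_of_dvd h)
    unfold ext
    rw [e _ _ ha, e _ _ hb, e _ _ hc]
  · intro a b c h
    obtain ⟨A, B, C, a1, a2, b1, b2, c1, c2, hs, ha, hb, hc⟩ := ext_rep h
    have key : ∀ (x : ℤ) (X : ℕ), 0 < X → X < n + 2 → x % ((n + 2 : ℕ) : ℤ) = X →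
        (-x) % ((n + 2 : ℕ) : ℤ) = ((n + 2 - X : ℕ) : ℤ) := by
      intro x X h1 h2 h3
      have h4 : (-x) % ((n + 2 : ℕ) : ℤ) = ((n + 2 - X : ℕ) : ℤ) % ((n + 2 : ℕ) : ℤ) := by
        apply Int.emod_eq_emod_iff_emod_sub_eq_zero.2
        apply Int.emod_eq_zero_of_dvd
        have h5 := Int.dvd_self_sub_emod (x := x) (m := ((n + 2 : ℕ) : ℤ))
        rw [h3] at h5
        have h6 := dvd_sub ((dvd_neg).2 h5) (dvd_refl ((n + 2 : ℕ) : ℤ))
        rwa [show -(x - (X : ℤ)) - ((n + 2 : ℕ) : ℤ) = -x - ((n + 2 - X : ℕ) : ℤ) by omega] at h6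
      rw [h4, Int.emod_eq_of_lt (by omega) (by omega)]
    rw [ext_eq s ha hb hc, ext_eq s (key a A a1 a2 ha) (key b B b1 b2 hb) (key c C c1 c2 hc)]
    rcases hs with hs | hs
    · rw [if_neg (by omega), if_pos hs]
      congr 1
      ext <;> simp only <;> omega
    · rw [if_pos (by omega), if_neg (by omega)]
  · intro a b c h
    obtain ⟨p, A, B, C, hp, he, _⟩ := ext_cell s h
    have := hlt p hp
    rw [he]
    omega
  · intro a b c b' c' h h' he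
    obtain ⟨p, A, B, C, hp, e1, ha, hb, hc, a1, a2, b1, b2, c1, c2, hpc⟩ := ext_cell s h
    obtain ⟨p', A', B', C', hp', e1', ha', hb', hc', a1', a2', b1', b2', c1', c2', hpc'⟩ :=
      ext_cell s h'
    have hAA : A = A' := by rw [ha] at ha'; exact_mod_cast ha'
    subst hAA
    rw [e1, e1'] at he
    obtain ⟨m, hm⟩ := id hn
    have hcell := hp
    have hcell' := hp'
    obtain ⟨w1, w2, w3, w4⟩ := hp
    obtain ⟨v1, v2, v3, v4⟩ := hp'
    have hlin : ∃ i, 1 ≤ i ∧ 2 * i ≤ n + 1 ∧ (p.1 = i ∨ (2 ≤ i ∧ p.1 = n + 2 - i)) ∧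
        (p'.1 = i ∨ (2 ≤ i ∧ p'.1 = n + 2 - i)) := by
      refine ⟨min A (n + 2 - A), ?_, ?_, ?_, ?_⟩
      · omega
      · omega
      · omega
      · omega
    obtain ⟨i, i1, i2, i3, i4⟩ := hlin
    have u : p = p' := un1 i i1 i2 p p' hcell hcell' i3 i4 he
    subst u
    have hBB : B = B' := by omega
    have : b % ((n + 2 : ℕ) : ℤ) = b' % ((n + 2 : ℕ) : ℤ) := by rw [hb, hb', hBB]
    exact Int.dvd_of_emod_eq_zero (Int.emod_eq_emod_iff_emod_sub_eq_zero.1 this)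
  · intro a b c a' c' h h' he
    obtain ⟨p, A, B, C, hp, e1, ha, hb, hc, a1, a2, b1, b2, c1, c2, hpc⟩ := ext_cell s h
    obtain ⟨p', A', B', C', hp', e1', ha', hb', hc', a1', a2', b1', b2', c1', c2', hpc'⟩ :=
      ext_cell s h'
    have hBB : B = B' := by rw [hb] at hb'; exact_mod_cast hb'
    subst hBB
    rw [e1, e1'] at he
    obtain ⟨m, hm⟩ := id hn
    have hcell := hp
    have hcell' := hp'
    obtain ⟨w1, w2, w3, w4⟩ := hp
    obtain ⟨v1, v2, v3, v4⟩ := hp'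
    have hlin : ∃ i, 1 ≤ i ∧ 2 * i ≤ n + 1 ∧ (p.2.1 = i ∨ (2 ≤ i ∧ p.2.1 = n + 2 - i)) ∧
        (p'.2.1 = i ∨ (2 ≤ i ∧ p'.2.1 = n + 2 - i)) := by
      refine ⟨min B (n + 2 - B), ?_, ?_, ?_, ?_⟩
      · omega
      · omega
      · omega
      · omega
    obtain ⟨i, i1, i2, i3, i4⟩ := hlin
    have u : p = p' := un2 i i1 i2 p p' hcell hcell' i3 i4 he
    subst u
    have hAA : A = A' := by omega
    have : a % ((n + 2 : ℕ) : ℤ) = a' % ((n + 2 : ℕ) : ℤ) := by rw [ha, ha', hAA]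
    exact Int.dvd_of_emod_eq_zero (Int.emod_eq_emod_iff_emod_sub_eq_zero.1 this)
  · intro a b c a' b' h h' he
    obtain ⟨p, A, B, C, hp, e1, ha, hb, hc, a1, a2, b1, b2, c1, c2, hpc⟩ := ext_cell s h
    obtain ⟨p', A', B', C', hp', e1', ha', hb', hc', a1', a2', b1', b2', c1', c2', hpc'⟩ :=
      ext_cell s h'
    have hCC : C = C' := by rw [hc] at hc'; exact_mod_cast hc'
    subst hCC
    rw [e1, e1'] at he
    obtain ⟨m, hm⟩ := id hn
    have hcell := hp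
    have hcell' := hp'
    obtain ⟨w1, w2, w3, w4⟩ := hp
    obtain ⟨v1, v2, v3, v4⟩ := hp'
    have hlin : ∃ i, 1 ≤ i ∧ 2 * i ≤ n + 1 ∧ (p.2.2 = i ∨ (2 ≤ i ∧ p.2.2 = n + 2 - i)) ∧
        (p'.2.2 = i ∨ (2 ≤ i ∧ p'.2.2 = n + 2 - i)) := by
      refine ⟨min C (n + 2 - C), ?_, ?_, ?_, ?_⟩
      · omega
      · omega
      · omega
      · omega
    obtain ⟨i, i1, i2, i3, i4⟩ := hlin
    have u : p = p' := un3 i i1 i2 p p' hcell hcell' i3 i4 he
    subst u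
    have hAA : A = A' := by omega
    have : a % ((n + 2 : ℕ) : ℤ) = a' % ((n + 2 : ℕ) : ℤ) := by rw [ha, ha', hAA]
    exact Int.dvd_of_emod_eq_zero (Int.emod_eq_emod_iff_emod_sub_eq_zero.1 this)


def nd : List ℕ → Bool
  | [] => true
  | x :: xs => xs.all (fun y => !(Nat.beq x y)) && nd xs

theorem nd_nodup : ∀ l : List ℕ, nd l = true → l.Nodup
  | [], _ => List.nodup_nil
  | x :: xs, h => by
    simp only [nd, Bool.and_eq_true, List.all_eq_true, Bool.not_eq_true'] at h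
    refine List.nodup_cons.2 ⟨fun hx => ?_, nd_nodup xs h.2⟩
    have := h.1 x hx
    simp at this

def rowA (n a : ℕ) : List (ℕ × ℕ × ℕ) :=
  (List.range (n + 1 - a)).map fun b => (a, b + 1, n + 1 - a - b)

def rowB (n b : ℕ) : List (ℕ × ℕ × ℕ) :=
  (List.range (n + 1 - b)).map fun a => (a + 1, b, n + 1 - b - a)

def rowC (n c : ℕ) : List (ℕ × ℕ × ℕ) :=
  (List.range (n + 1 - c)).map fun a => (a + 1, n + 1 - c - a, c)

def lineOf (row : ℕ → ℕ → List (ℕ × ℕ × ℕ)) (n i : ℕ) : List (ℕ × ℕ × ℕ) :=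
  row n i ++ (if 2 ≤ i then row n (n + 2 - i) else [])

def chk (n : ℕ) (s : ℕ × ℕ × ℕ → ℕ) : Bool :=
  (List.range ((n + 1) / 2)).all fun j =>
    nd ((lineOf rowA n (j + 1)).map s) && nd ((lineOf rowB n (j + 1)).map s) &&
      nd ((lineOf rowC n (j + 1)).map s) && ((lineOf rowA n (j + 1)).map s).all fun x => Nat.blt x n

theorem mem_rowA {n a b c : ℕ} (h : IsCell n (a, b, c)) : (a, b, c) ∈ rowA n a := by
  obtain ⟨h1, h2, h3, h4⟩ := h
  simp only at h1 h2 h3 h4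
  simp only [rowA, List.mem_map, List.mem_range]
  refine ⟨b - 1, by omega, ?_⟩
  ext <;> simp only <;> omega

theorem mem_rowB {n a b c : ℕ} (h : IsCell n (a, b, c)) : (a, b, c) ∈ rowB n b := by
  obtain ⟨h1, h2, h3, h4⟩ := h
  simp only at h1 h2 h3 h4
  simp only [rowB, List.mem_map, List.mem_range]
  refine ⟨a - 1, by omega, ?_⟩
  ext <;> simp only <;> omega

theorem mem_rowC {n a b c : ℕ} (h : IsCell n (a, b, c)) : (a, b, c) ∈ rowC n c := by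
  obtain ⟨h1, h2, h3, h4⟩ := h
  simp only at h1 h2 h3 h4
  simp only [rowC, List.mem_map, List.mem_range]
  refine ⟨a - 1, by omega, ?_⟩
  ext <;> simp only <;> omega

theorem mem_lineOf {row : ℕ → ℕ → List (ℕ × ℕ × ℕ)} {n i r : ℕ} {p : ℕ × ℕ × ℕ}
    (h : p ∈ row n r) (hr : r = i ∨ (2 ≤ i ∧ r = n + 2 - i)) : p ∈ lineOf row n i := by
  unfold lineOf
  rw [List.mem_append]
  rcases hr with rfl | ⟨h2, rfl⟩
  · left; exact h
  · right; rw [if_pos h2]; exact h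

theorem chk_ok {n : ℕ} (hn : Odd n) (s : ℕ × ℕ × ℕ → ℕ) (h : chk n s = true) :
    HasLatinTriangle n := by
  simp only [chk, List.all_eq_true, List.mem_range, Bool.and_eq_true] at h
  have hline : ∀ i, 1 ≤ i → 2 * i ≤ n + 1 → ((lineOf rowA n i).map s).Nodup ∧
      ((lineOf rowB n i).map s).Nodup ∧ ((lineOf rowC n i).map s).Nodup ∧
      ∀ p ∈ lineOf rowA n i, s p < n := by
    intro i h1 h2
    obtain ⟨j, rfl⟩ : ∃ j, i = j + 1 := ⟨i - 1, by omega⟩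
    obtain ⟨⟨⟨q1, q2⟩, q3⟩, q4⟩ := h j (by omega)
    refine ⟨nd_nodup _ q1, nd_nodup _ q2, nd_nodup _ q3, fun p hp => ?_⟩
    have := q4 (s p) (List.mem_map_of_mem hp)
    rwa [Nat.blt_eq] at this
  obtain ⟨s', hs'⟩ := uniq_to_good hn s (by
      rintro ⟨a, b, c⟩ hp
      have hp' := hp
      obtain ⟨w1, w2, w3, w4⟩ := hp
      simp only at w1 w2 w3 w4
      obtain ⟨m, hm⟩ := id hn
      refine (hline (min a (n + 2 - a)) (by omega) (by omega)).2.2.2 _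
        (mem_lineOf (mem_rowA hp') (by omega)))
    (by
      rintro i h1 h2 ⟨a, b, c⟩ ⟨a', b', c'⟩ hp hp' hl hl' he
      exact List.inj_on_of_nodup_map (hline i h1 h2).1 (mem_lineOf (mem_rowA hp) hl)
        (mem_lineOf (mem_rowA hp') hl') he)
    (by
      rintro i h1 h2 ⟨a, b, c⟩ ⟨a', b', c'⟩ hp hp' hl hl' he
      exact List.inj_on_of_nodup_map (hline i h1 h2).2.1 (mem_lineOf (mem_rowB hp) hl)
        (mem_lineOf (mem_rowB hp') hl') he)
    (by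
      rintro i h1 h2 ⟨a, b, c⟩ ⟨a', b', c'⟩ hp hp' hl hl' he
      exact List.inj_on_of_nodup_map (hline i h1 h2).2.2.1 (mem_lineOf (mem_rowC hp) hl)
        (mem_lineOf (mem_rowC hp') hl') he)
  exact good_to_lt hn hs'

/-- The filling given by a table, one number per row. -/
def tab (T : List ℕ) (p : ℕ × ℕ × ℕ) : ℕ := (T.getD (p.1 - 1) 0 >>> (7 * (p.2.1 - 1))) % 128

end Pool.Agent.LT77
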