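import Mathlib
import Pool.Agent.LT77.Cert

set_option autoImplicit false
set_option maxRecDepth 100000

namespace Pool.Agent.LT77

/-- A latin triangle of order 13. -/
def T13 : List ℕ :=
  [ 233181095203178991312880260,
    467579210244215340565249,
    13015043778897527325578,
    92309208543300485131,
    294423069380920578,
    3980610328790019,
    22334909990284,
    208310109319,
    537035270,
    18973064,
    131337,
    133,
    0 ]

theorem lt13 : HasLatinTriangle 13 :=
  chk_ok (by decide) (tab T13) (by decide +kernel)

end Pool.Agent.LT77
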