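import Mathlib
import Pool.Agent.LT77.Cert

set_option autoImplicit false
set_option maxRecDepth 100000

namespace Pool.Agent.LT77

/-- A latin triangle of order 19. -/
def T19 : List ℕ :=
  [ 1025557203623210779781620170070675309574,
    727573164926610488921059916215780610,
    26697056061125011362699559659833099,
    568544003269511841952122297040912,
    1943624055502251802448187426826,
    22304396896724373753743819651,
    309950329089275992425366927,
    2587912179046276034332306,
    8348018663151177564545,
    74507613912317330572,
    801095925964572935,
    7367346935284369,
    66144918732942,
    140943378569,
    2684568324,
    37980045,
    49669,
    264,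
    0 ]

theorem lt19 : HasLatinTriangle 19 :=
  chk_ok (by decide) (tab T19) (by decide +kernel)

end Pool.Agent.LT77
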