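import Mathlib
import Pool.Agent.LT77.Cert

set_option autoImplicit false
set_option maxRecDepth 100000

namespace Pool.Agent.LT77

/-- A latin triangle of order 31. -/
def T31 : List ℕ :=
  [ 14849832947778303488492274670529744789945216815091999540223771284,
    180687164803041122062909214587664466774633109350791836071987460,
    1016908977003018674491423738742747622913075882803969671988869,
    23613892320794560261386378124220124667955686215375382659347,
    92626256106045507672664354782459385333315525560026300544,
    3037435892948756967825674126396271913788070011453849,
    9357127791772169475028629052903912033759891057756679,
    62027313930769436384830579120764393071376441821328,
    25523378992521973737392886295810176982800582427,
    375128302904139704343663445674930997742092298,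
    36336900459871167749750946130069084159821846,
    206905003702191823453114935802874149735324,
    1112636898003208428529723545784127212929,
    10753248079569087341234332720433399048,
    140282067951264973776311743739413402,
    697210811674348939677177397381510,
    1646600053325998778882434680322,
    44644890380100600487418908431,
    215972839672028705145030531,
    459518412078773514077201,
    14334722323105460767371,
    57441755562915630226,
    507882600948747293,
    2327219483741449,
    97653650490766,
    793289818636,
    5425499671,
    17089301,
    461581,
    3742,
    24 ]

theorem lt31 : HasLatinTriangle 31 :=
  chk_ok (by decide) (tab T31) (by decide +kernel)

end Pool.Agent.LT77
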