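import Mathlib
import Pool.Agent.LT77.Cert

set_option autoImplicit false
set_option maxRecDepth 100000

namespace Pool.Agent.LT77

/-- A latin triangle of order 37. -/
def T37 : List ℕ :=
  [ 174879113009758840838005064758112940307589887486759525869423105327959365404812,
    519460402387433734654851686184803442037330001786762990903657340741592812293,
    8883522998871499953731798598783473216725243695072090458846249279302271240,
    86408985701340398289660282476688097765939790778792312684550486304784411,
    331154619274383944932707823096941874170616793064410351787778830176394,
    3191033668440205438336264042985020136888736834227574824261011342211,
    42950360127614947490036816036206752054747211005059653291573691421,
    54953673504618104162367011869023641697813221380812091445858190,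
    1125318231665811625904677976575628955814049204747713475203479,
    21320279257927645454534299847726007493604566049110603579807,
    50670426257824949121442552647123308092877223813200252551,
    868088609444868793552586285502192998899400357091787270,
    10494020470388053311828379763877103520972204144724897,
    88444248486329805424693608103005242734442056945060,
    24483475742952241835905827913602412375307635341,
    5176802424048325795026630890222107640184637731,
    4529862233992840003542209701820730370706576,
    228777589839734377814770192434931912132233,
    1453574301819702148206893696592117842072,
    12789037643724071628155373600961991189,
    83818026051809587058124916448035588,
    1259765505951291680239389533111450,
    7363405661408514772734218408193,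
    89581570953117527941960992153,
    621258293504613027881912348,
    336616995471692761452562,
    8293834757175515875219,
    306177924458443230494,
    448165408164663051,
    7917412811164162,
    150228567607712,
    763210337807,
    2684782102,
    73467682,
    214292,
    657,
    0 ]

theorem lt37 : HasLatinTriangle 37 :=
  chk_ok (by decide) (tab T37) (by decide +kernel)

end Pool.Agent.LT77
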