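import Mathlib
import Pool.Agent.LT77.Cert

set_option autoImplicit false
set_option maxRecDepth 100000

namespace Pool.Agent.LT77

/-- A latin triangle of order 49. -/
def T49 : List ℕ :=
  [ 4510336341213764828727748229595810351119461408200600008178816934149139135713176454355376586174339779472,
    13398257810569518230369058758626071818028419134305652138236506355467537230733913559633702344362118919,
    85731108133639679876434986804562755895549676264188184218621556178078823714442430212974844582709786,
    2206440987722397242445358531245799945400663643717068894410998804369874092090655121982722196783139,
    8539289687953127141203084649199865447973181554788676346904991734476433133141192613905710962318,
    12582289664312486830267318712849872759976051064542207212969342851528471456306586533669408147,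
    1082748951433794001819879347273549487578862686930220875820607175640714831489446995060002085,
    5313669954860744924041072990598717537510822721250289335898769640639334469170672408073604,
    56599481916105165121004002565065174388010745309322406275376124801335441542282572480653,
    534772578436875774532644700795671705077272591488709682092459796461911291800397906343,
    3125663012368344627117368451362857544498360588154239709090380594061078913609651355,
    20440021621195408885487212044078630952042157484507389517955628270879454626794502,
    261043382458664459285769779274486983531721167780012469083038859579955666439849,
    868050171747575363641647998514756722233634769819701340231118380982442578817,
    21255168474051222640339057698112003973819200771214003136038776493409046433,
    128226620900255127141297913049559213356755211056500805889605320917173035,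
    521516744420549215475826314056734744074772927352983439006492711522952,
    5300725792281545235508487148441800853567596738142380364526695219849,
    62956145586926650443124690183908191723509031134043308108332568877,
    312853222991438044207295496212351334198194407180984876706271647,
    1817491680785472731497292661586306306969142242340277473431042,
    30767065288928583160661462970756365694277980395994846858415,
    81701239269479836621619077922518017699408549459341463685,
    1347800082146238274949027705728201559753281261454131468,
    8670000083633405366753978323818116000451644476213536,
    50632700911564888017234069941487112995012480079900,
    118684653591943582555687344559950255957385905301,
    7316248530969379786457611802641240923358594594,
    8799288166988812295193972477225013342279442,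
    340474446098021674531576898653165757978511,
    3581720728762508867674088683502827539108,
    7513585144566885178045597172264654361,
    41793556463387353025583743739955992,
    1751916229219367620253351328270246,
    12770997352919292805898096301360,
    3042285532156811101917005457,
    853969541275961476025435176,
    3066018293957098316338198,
    31906606189741330794891,
    417294165492061571242,
    668969403022922525,
    2367353541870868,
    202658306835884,
    1040248623619,
    3758721054,
    98648622,
    34570,
    919,
    0 ]

theorem lt49 : HasLatinTriangle 49 :=
  chk_ok (by decide) (tab T49) (by decide +kernel)

end Pool.Agent.LT77
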