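import Mathlib
import Pool.Agent.LT77.Cert

set_option autoImplicit false
set_option maxRecDepth 100000

namespace Pool.Agent.LT77

/-- A latin triangle of order 55. -/
def T55 : List ℕ :=
  [ 8052045869460208716893999585812776026259609240229242574901901613381903747557483062311407961025826952216684930684421,
    149786558003976504941724694277507218981457627892374649066718170006491924721044544187774155126775476021209998672049,
    1431551780757975237727191891268117915373462584407510300144651415926373595865242813640789922706457515983840559923,
    9477024928588295056634950380581737831494372770215704308586586787255412267014713670491662781606021682237381406,
    14108753908950578736520486694353715759374920612575183153625280959852050342765904085699702449818381539088520,
    328577698751840310156391403841360018975989437584317528978590913028200915930019225990475867753457081587632,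
    6185769937069398801448268215822148507098351309199134402604381213798408062615738988649386778200961255713,
    16646831754085575293886687711883825311528448989168454810349930621998570424626801173217004018593206687,
    361062818810387755201215393372573773406444146117732176061035212809436118426926010644865323828496818,
    802067392825537941041908165083109861191635979947038866380598296871473711593342951931731316621838,
    17943455473035342308004638420755073972002531335823633382774952583515914825118564310839523495081,
    118605202464263297239289930201543652304855412270245368644426817689034042386949863947396094603,
    266324396306993006283537796545210556086242567779526784987427451984937813543961065810926004,
    6046362028748140509980638922893386997065319056626964881898020036983262425909358788103818,
    40902430372204791250290153202751901303889606380535313804668816988849806812749362434326,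
    608393184381935617991235933100608194411831708559098584861216698625491894394992398872,
    512569631555552098161280116639097349610879731696696852932237194047182982687083266,
    24360225941280540042515583499986801085180664970252974511212715897757794763577104,
    377856330380551282895617807315169070711507227312570761510951900323554223885828,
    2325719615860971695730735184571963247733557202400849302174624947098632766732,
    21644048061704149401912138063624078451577277526001600054652574234465932207,
    93987718826355822805622909446194109024543588993908203348067736063693447,
    1304847810431078100099491203276193883924993770584838357697947495123584,
    4268902666867554569227657274052199768496562974572064560025790646291,
    11920087805514362146224066097833114383215721125970831060892898438,
    386069539197765843966926174199527964212593637925133133184784402,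
    3953258549580662479535031941780058660366808061873165549016348,
    7186415247424783610145587504850629182340856616492374558609,
    85878527206197476151827297511002029939038559535473318183,
    776019442821726882919773152271832307915012694285045121,
    8728890471612617013097463273365752578357562737776309,
    56571482546041533331893963297406359389850531039757,
    646367707415958637672500319283479453430368588567,
    8397877972080697082414420179138017493552612244,
    71153500863552857161542587664988566367014958,
    23656495695958557122578236495921257350685,
    3842307070789457033005230255732775406490,
    14872124703448049887140861014903751840,
    2045407030772945335287359520294315,
    1877806741312787868419507448465561,
    11172082806026715091468818814381,
    124841387247795303724429842981,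
    99147341304189998147309494,
    5618853111481335101522344,
    50905394842630445125418,
    13052766015384551460,
    1829025468402942619,
    30509565963930639,
    158782802545958,
    378840613155,
    2745635874,
    111724297,
    279573,
    4268,
    3 ]

theorem lt55 : HasLatinTriangle 55 :=
  chk_ok (by decide) (tab T55) (by decide +kernel)

end Pool.Agent.LT77
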