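import Mathlib
import Pool.Agent.LT77.T13
import Pool.Agent.LT77.T19
import Pool.Agent.LT77.T31
import Pool.Agent.LT77.T37
import Pool.Agent.LT77.T49
import Pool.Agent.LT77.T55
import Pool.Agent.LT77.T67
import Pool.Agent.LT77.T73
import Pool.Agent.LT77.T85
import Pool.Agent.LT77.T91

set_option autoImplicit false

namespace Pool.Agent.LT77

theorem bases {q : ℕ} (hq : Odd q) (h : q ≤ 33) : HasLatinTriangle (3 * q - 2) := by
  have h1 : HasLatinTriangle (3 * 1 - 2) := by simpa using lt_one
  have f3 := family (q := 1) odd_one h1 1
  have f9 := family (q := 1) odd_one h1 2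
  have f27 := family (q := 1) odd_one h1 3
  have f15 := family (q := 5) (by decide) (by simpa using lt13) 1
  have f21 := family (q := 7) (by decide) (by simpa using lt19) 1
  have f33 := family (q := 11) (by decide) (by simpa using lt31) 1
  norm_num at f3 f9 f27 f15 f21 f33
  obtain ⟨r, rfl⟩ := hq
  have hr : r ≤ 16 := by omega
  interval_cases r
  · exact h1
  · exact f3
  · exact lt13
  · exact lt19
  · exact f9
  · exact lt31
  · exact lt37
  · exact f15
  · exact lt49
  · exact lt55
  · exact f21
  · exact lt67
  · exact lt73
  · exact f27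
  · exact lt85
  · exact lt91
  · exact f33

end Pool.Agent.LT77
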